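import Pool.Agent.GracefulLeaf.Defs

set_option autoImplicit false

/-! # Existence of the decomposition into long chains -/

namespace Pool.Agent.GracefulLeaf

open Finset Pool.Agent.GracefulAsym

section

variable {V : Type*} [Fintype V] [DecidableEq V] (R : RT V)

/-- the first `n` steps upwards from `b` avoid the root and end at vertices with one child -/
def GoodUp (b : V) (n : ℕ) : Prop := ∀ j < n, R.par^[j] b ≠ R.r ∧ R.ch (R.par^[j + 1] b) = 1

instance (b : V) (n : ℕ) : Decidable (GoodUp R b n) := by
  unfold GoodUp; infer_instance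

/-- the number of steps of the chain above `b` -/
def clen (b : V) : ℕ := Nat.findGreatest (GoodUp R b) (R.dep b)

omit [Fintype V] [DecidableEq V] in
theorem dep_iter (b : V) : ∀ n, (∀ j < n, R.par^[j] b ≠ R.r) →
    R.dep (R.par^[n] b) + n = R.dep b := by
  intro n
  induction n with
  | zero => intro _; rfl
  | succ n ih =>
    intro h
    have h1 := ih fun j hj => h j (by omega)
    have h2 := R.dep_par (R.par^[n] b) (h n (by omega))
    rw [Function.iterate_succ_apply']
    omega

theorem good_le (b : V) (n : ℕ) (h : GoodUp R b n) : n ≤ clen R b := by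
  apply Nat.le_findGreatest _ h
  have := dep_iter R b n fun j hj => (h j hj).1
  omega

theorem good_clen (b : V) : GoodUp R b (clen R b) := by
  unfold clen
  exact Nat.findGreatest_spec (P := GoodUp R b) (m := 0) (Nat.zero_le _)
    (fun j hj => absurd hj (Nat.not_lt_zero _))

theorem ch_one_unique {v c c' : V} (h : R.ch v = 1) (hc : c ≠ R.r) (hc' : c' ≠ R.r)
    (h1 : R.par c = v) (h2 : R.par c' = v) : c = c' := by
  unfold RT.ch at h
  rw [card_eq_one] at h
  obtain ⟨a, ha⟩ := h
  have h3 : c ∈ ({a} : Finset V) := by rw [← ha]; simp [hc, h1]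
  have h4 : c' ∈ ({a} : Finset V) := by rw [← ha]; simp [hc', h2]
  rw [mem_singleton] at h3 h4
  rw [h3, h4]

theorem chain_inj {b b' : V} (hb : R.ch b ≠ 1) (hb' : R.ch b' ≠ 1) :
    ∀ j j', 1 ≤ j → j ≤ clen R b → 1 ≤ j' → j' ≤ clen R b' → R.par^[j] b = R.par^[j'] b' →
      b = b' ∧ j = j' := by
  have hg := good_clen R b
  have hg' := good_clen R b'
  intro j
  induction j with
  | zero => intro j' h; omega
  | succ j ih =>
    intro j' _ h2 h3 h4 h5
    obtain ⟨j', rfl⟩ : ∃ k, j' = k + 1 := ⟨j' - 1, by omega⟩
    obtain ⟨g1, g2⟩ := hg j (by omega)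
    obtain ⟨g3, g4⟩ := hg' j' (by omega)
    have h6 : R.par^[j] b = R.par^[j'] b' := by
      apply ch_one_unique R g2 g1 g3
      · rw [Function.iterate_succ_apply']
      · rw [h5, Function.iterate_succ_apply']
    rcases Nat.eq_zero_or_pos j with hj | hj
    · rcases Nat.eq_zero_or_pos j' with hj' | hj'
      · subst hj; subst hj'
        exact ⟨h6, rfl⟩
      · exfalso
        subst hj
        obtain ⟨k, rfl⟩ : ∃ k, j' = k + 1 := ⟨j' - 1, by omega⟩
        have := (hg' k (by omega)).2
        rw [← h6] at this
        exact hb this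
    · rcases Nat.eq_zero_or_pos j' with hj' | hj'
      · exfalso
        subst hj'
        obtain ⟨k, rfl⟩ : ∃ k, j = k + 1 := ⟨j - 1, by omega⟩
        have := (hg k (by omega)).2
        rw [h6] at this
        exact hb' this
      · obtain ⟨h7, h8⟩ := ih j' hj (by omega) hj' (by omega) h6
        exact ⟨h7, by omega⟩

theorem exists_bottom : ∀ n, ∀ v : V, univ.sup R.dep - R.dep v = n → R.ch v = 1 →
    ∃ b j, R.ch b ≠ 1 ∧ 1 ≤ j ∧ GoodUp R b j ∧ R.par^[j] b = v := by
  intro n
  induction n using Nat.strong_induction_on with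
  | _ n ih =>
    intro v hn hv
    have hv' := hv
    unfold RT.ch at hv'
    rw [card_eq_one] at hv'
    obtain ⟨c, hc⟩ := hv'
    have hc' : c ∈ (univ.filter fun c => c ≠ R.r ∧ R.par c = v) := by rw [hc]; simp
    rw [mem_filter] at hc'
    obtain ⟨_, hcr, hcv⟩ := hc'
    by_cases h1 : R.ch c = 1
    · have h2 := R.dep_par c hcr
      have h3 : R.dep c ≤ univ.sup R.dep := Finset.le_sup (Finset.mem_univ c)
      rw [hcv] at h2
      obtain ⟨b, j, hb, hj, hg, hbj⟩ := ih (univ.sup R.dep - R.dep c) (by omega) c rfl h1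
      refine ⟨b, j + 1, hb, by omega, ?_, ?_⟩
      · intro i hi
        rcases Nat.lt_succ_iff_lt_or_eq.1 hi with hi | hi
        · exact hg i hi
        · subst hi
          rw [Function.iterate_succ_apply', hbj, hcv]
          exact ⟨hcr, hv⟩
      · rw [Function.iterate_succ_apply', hbj, hcv]
    · refine ⟨c, 1, h1, le_refl _, ?_, ?_⟩
      · intro i hi
        have : i = 0 := by omega
        subst this
        simp only [Function.iterate_zero, id, zero_add, Function.iterate_one]
        rw [hcv]
        exact ⟨hcr, hv⟩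
      · simpa using hcv

theorem sum_ch_eq : ∑ v, R.ch v + 1 = Fintype.card V := by
  have h1 : ∑ v, R.ch v = (univ.filter fun c => c ≠ R.r).card := by
    rw [card_eq_sum_card_fiberwise (f := R.par) (t := univ) (fun _ _ => mem_univ _)]
    apply sum_congr rfl
    intro v _
    unfold RT.ch
    rw [filter_filter]
  rw [h1, filter_ne', card_erase_of_mem (mem_univ _), card_univ]
  have : 0 < Fintype.card V := Fintype.card_pos_iff.2 ⟨R.r⟩
  omega

theorem card_bottom : (univ.filter fun v => R.ch v ≠ 1).card ≤
    2 * (univ.filter fun v => R.ch v = 0).card := by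
  classical
  have h1 := sum_ch_eq R
  have h2 : ∑ _v : V, (2 : ℕ) ≤ ∑ v : V, (R.ch v + (if R.ch v = 1 then 1 else 0) +
      (if R.ch v = 0 then 2 else 0)) := by
    apply sum_le_sum
    intro v _
    split_ifs <;> omega
  rw [sum_add_distrib, sum_add_distrib, ← sum_filter, ← sum_filter, sum_const, sum_const,
    sum_const, card_univ] at h2
  simp only [smul_eq_mul, mul_one] at h2
  have h3 := card_filter_add_card_filter_not (s := (univ : Finset V)) (fun v => R.ch v = 1)
  rw [card_univ] at h3
  change _ + (univ.filter fun v => R.ch v ≠ 1).card = _ at h3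
  omega

theorem card_ch_one : (univ.filter fun v => R.ch v = 1).card ≤
    ∑ b ∈ univ.filter (fun v => R.ch v ≠ 1), clen R b := by
  classical
  have h1 : (univ.filter fun v => R.ch v = 1) ⊆
      (univ.filter fun v => R.ch v ≠ 1).biUnion fun b =>
        (range (clen R b)).image fun j => R.par^[j + 1] b := by
    intro v hv
    rw [mem_filter] at hv
    obtain ⟨b, j, hb, hj, hg, hbj⟩ := exists_bottom R _ v rfl hv.2
    rw [mem_biUnion]
    refine ⟨b, by simp [hb], ?_⟩
    rw [mem_image]
    refine ⟨j - 1, ?_, ?_⟩
    · rw [mem_range]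
      have := good_le R b j hg
      omega
    · rw [Nat.sub_add_cancel hj, hbj]
  refine (card_le_card h1).trans (card_biUnion_le.trans ?_)
  apply sum_le_sum
  intro b _
  exact card_image_le.trans (by rw [card_range])

end

/-- an enumeration of a finite set by decreasing value of `f` -/
theorem exists_sorted {V : Type*} [DecidableEq V] (P : Finset V) (f : V → ℕ) (d : V) :
    ∃ e : ℕ → V, (∀ i < P.card, e i ∈ P) ∧
      (∀ i < P.card, ∀ i' < P.card, e i = e i' → i = i') ∧
      (∀ i j, i ≤ j → j < P.card → f (e j) ≤ f (e i)) := by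
  classical
  let e0 : Fin P.card ≃ P := P.equivFin.symm
  let g : Fin P.card → ℕᵒᵈ := fun i => OrderDual.toDual (f (e0 i).1)
  let σ := Tuple.sort g
  have hσ : Monotone (g ∘ σ) := Tuple.monotone_sort g
  refine ⟨fun i => if h : i < P.card then (e0 (σ ⟨i, h⟩)).1 else d, ?_, ?_, ?_⟩
  · intro i hi
    simp only [hi, dif_pos]
    exact (e0 (σ ⟨i, hi⟩)).2
  · intro i hi i' hi' h
    simp only [hi, hi', dif_pos] at h
    have h1 := σ.injective (e0.injective (Subtype.ext h))
    exact congrArg Fin.val h1
  · intro i j hij hj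
    have hi : i < P.card := by omega
    simp only [hi, hj, dif_pos]
    have h1 : (⟨i, hi⟩ : Fin P.card) ≤ ⟨j, hj⟩ := hij
    exact hσ h1

/-- (L2) existence of the chain decomposition. -/
theorem exists_chains {V : Type*} [Fintype V] [DecidableEq V] (R : RT V) :
    Nonempty (Chains R (univ.filter fun v => R.ch v = 0).card) := by
  classical
  set B := univ.filter (fun v => R.ch v ≠ 1) with hB
  set P := B.filter (fun b => 5 ≤ clen R b) with hP
  obtain ⟨e, he1, he2, he3⟩ := exists_sorted P (clen R) R.r
  have hch : ∀ i < P.card, R.ch (e i) ≠ 1 := by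
    intro i hi
    have := he1 i hi
    rw [hP, mem_filter, hB, mem_filter] at this
    exact this.1.2
  have hlen : ∀ i < P.card, 5 ≤ clen R (e i) := by
    intro i hi
    have := he1 i hi
    rw [hP, mem_filter] at this
    exact this.2
  have hgood := fun i => good_clen R (e i)
  have hinj : ∀ i < P.card, ∀ i' < P.card, ∀ j j', 1 ≤ j → j ≤ clen R (e i) → 1 ≤ j' →
      j' ≤ clen R (e i') → R.par^[j] (e i) = R.par^[j'] (e i') → i = i' ∧ j = j' := by
    intro i hi i' hi' j j' h1 h2 h3 h4 h5
    obtain ⟨h6, h7⟩ := chain_inj R (hch i hi) (hch i' hi') j j' h1 h2 h3 h4 h5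
    exact ⟨he2 i hi i' hi' h6, h7⟩
  have hkid : ∀ i < P.card, ∀ j, j < clen R (e i) → ∀ c, c ≠ R.r →
      R.par c = R.par^[j + 1] (e i) → c = R.par^[j] (e i) := by
    intro i hi j hj c hc hpar
    obtain ⟨h1, h2⟩ := hgood i j hj
    exact ch_one_unique R h2 hc h1 hpar (Function.iterate_succ_apply' _ _ _).symm
  have hup : ∀ i < P.card, ∀ j, j < clen R (e i) → R.par^[j] (e i) ≠ R.r ∧
      R.par (R.par^[j] (e i)) = R.par^[j + 1] (e i) := by
    intro i hi j hj
    exact ⟨(hgood i j hj).1, (Function.iterate_succ_apply' _ _ _).symm⟩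
  refine ⟨{
    p := P.card
    s := fun i => clen R (e i) - 3
    w := fun i j => R.par^[j + 2] (e i)
    yb := fun i => R.par^[1] (e i)
    yt := fun i => R.par^[clen R (e i) - 1] (e i)
    hp := (card_le_card (filter_subset _ _)).trans (card_bottom R)
    hs := ?_
    hmono := ?_
    w_inj := ?_
    yb_inj := ?_
    yt_inj := ?_
    yb_yt := ?_
    w_yb := ?_
    w_yt := ?_
    par_w := ?_
    par_top := ?_
    par_yb := ?_
    kid_w := ?_
    kid_w0 := ?_
    kid_yt := ?_
    par_yt := ?_
    yt_yb := ?_
    card_le := ?_ }⟩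
  · intro i hi
    have := hlen i hi
    omega
  · intro i j hij hj
    have := he3 i j hij hj
    exact Nat.sub_le_sub_right this 3
  · intro i hi i' hi' j hj j' hj' h
    obtain ⟨h1, h2⟩ := hinj i hi i' hi' (j + 2) (j' + 2) (by omega) (by omega) (by omega)
      (by omega) h
    exact ⟨h1, by omega⟩
  · intro i hi i' hi' h
    have := hlen i hi
    have := hlen i' hi'
    exact (hinj i hi i' hi' 1 1 (by omega) (by omega) (by omega) (by omega) h).1
  · intro i hi i' hi' h
    have := hlen i hi
    have := hlen i' hi'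
    exact (hinj i hi i' hi' _ _ (by omega) (by omega) (by omega) (by omega) h).1
  · intro i hi i' hi' h
    have := hlen i hi
    have := hlen i' hi'
    have := (hinj i hi i' hi' _ _ (by omega) (by omega) (by omega) (by omega) h).2
    omega
  · intro i hi i' hi' j hj h
    have := hlen i hi
    have := hlen i' hi'
    have := (hinj i hi i' hi' _ _ (by omega) (by omega) (by omega) (by omega) h).2
    omega
  · intro i hi i' hi' j hj h
    have := hlen i hi
    have := hlen i' hi'
    obtain ⟨h1, h2⟩ := hinj i hi i' hi' _ _ (by omega) (by omega) (by omega) (by omega) h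
    subst h1
    omega
  · intro i hi j hj
    exact hup i hi (j + 2) (by omega)
  · intro i hi
    have h5 := hlen i hi
    have h1 := hup i hi (clen R (e i) - 3 - 1 + 2) (by omega)
    have h2 : clen R (e i) - 3 - 1 + 2 + 1 = clen R (e i) - 1 := by omega
    rw [h2] at h1
    exact h1
  · intro i hi
    have h5 := hlen i hi
    exact hup i hi 1 (by omega)
  · intro i hi j hj c hc hpar
    exact hkid i hi (j + 2) (by omega) c hc hpar
  · intro i hi c hc hpar
    have h5 := hlen i hi
    exact hkid i hi 1 (by omega) c hc hpar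
  · intro i hi c hc hpar
    have h5 := hlen i hi
    apply hkid i hi (clen R (e i) - 3 - 1 + 2) (by omega) c hc
    have h2 : clen R (e i) - 3 - 1 + 2 + 1 = clen R (e i) - 1 := by omega
    rw [h2]
    exact hpar
  · intro i hi
    have h5 := hlen i hi
    obtain ⟨h1, h2⟩ := hup i hi (clen R (e i) - 1) (by omega)
    refine ⟨h1, ?_⟩
    intro c hc hpar
    exact hkid i hi (clen R (e i) - 1) (by omega) c hc (hpar.trans h2)
  · intro i hi i' hi' h
    have h5 := hlen i hi
    have h5' := hlen i' hi'
    rw [(hup i hi (clen R (e i) - 1) (by omega)).2] at h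
    have := (hinj i hi i' hi' _ _ (by omega) (by omega) (by omega) (by omega) h).2
    omega
  · -- counting
    have h1 := card_ch_one R
    have h2 := card_bottom R
    rw [← hB] at h1 h2
    have h3 := card_filter_add_card_filter_not (s := (univ : Finset V)) (fun v => R.ch v = 1)
    rw [card_univ] at h3
    change _ + B.card = _ at h3
    have h4 : ∑ b ∈ P, (clen R b - 3) = ∑ i ∈ range P.card, (clen R (e i) - 3) := by
      have him : (range P.card).image e = P := by
        apply eq_of_subset_of_card_le
        · intro x hx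
          rw [mem_image] at hx
          obtain ⟨i, hi, rfl⟩ := hx
          exact he1 i (mem_range.1 hi)
        · rw [card_image_of_injOn, card_range]
          intro i hi i' hi' h
          exact he2 i (mem_range.1 hi) i' (mem_range.1 hi') h
      conv_lhs => rw [← him]
      rw [sum_image]
      intro i hi i' hi' h
      exact he2 i (mem_range.1 hi) i' (mem_range.1 hi') h
    have h5 : ∑ b ∈ B, clen R b ≤ ∑ b ∈ B, 4 + ∑ b ∈ P, (clen R b - 3) := by
      have h6 : ∑ b ∈ P, (clen R b - 3) =
          ∑ b ∈ B, (if 5 ≤ clen R b then clen R b - 3 else 0) := by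
        rw [hP, sum_filter]
      rw [h6, ← sum_add_distrib]
      apply sum_le_sum
      intro b _
      split_ifs <;> omega
    rw [sum_const, smul_eq_mul, h4] at h5
    omega

end Pool.Agent.GracefulLeaf
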