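import Pool.Agent.GracefulAsym.Defs
import Pool.Agent.Graceful.Completion

set_option autoImplicit false

/-! # The completion lemma for rooted trees -/

namespace Pool.Agent.GracefulLeaf

open Finset Pool.Agent.GracefulAsym Pool.Agent.Graceful

theorem abs_sub_nat (a b : ℕ) : |(a : ℤ) - b| = (ad a b : ℤ) := by
  unfold ad
  rcases le_total a b with h | h
  · rw [abs_of_nonpos (by omega)]; omega
  · rw [abs_of_nonneg (by omega)]; omega

theorem complete {V : Type*} [Fintype V] [DecidableEq V] (T : SimpleGraph V) (hT : T.IsTree)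
    (R : RT V) (hR : ∀ u v, T.Adj u v ↔ (u ≠ R.r ∧ R.par u = v) ∨ (v ≠ R.r ∧ R.par v = u))
    (f : V → ℕ) (N : ℕ) (hf : Function.Injective f) (hfN : ∀ v, f v ≤ N)
    (hd : ∀ v w, v ≠ R.r → w ≠ R.r →
      ad (f v) (f (R.par v)) = ad (f w) (f (R.par w)) → v = w)
    (hdom : ∀ t, t < N → (univ.filter fun v => f v ≤ t).card ≤
      (univ.filter fun v => v ≠ R.r ∧ N ≤ t + ad (f v) (f (R.par v))).card) :
    N ∈ supertreeSizes T := by
  classical
  have hadle : ∀ v, ad (f v) (f (R.par v)) ≤ N := by
    intro v
    have h1 := hfN v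
    have h2 := hfN (R.par v)
    unfold ad
    omega
  have hparadj : ∀ v, v ≠ R.r → T.Adj v (R.par v) := fun v hv => (hR v (R.par v)).2 (Or.inl ⟨hv, rfl⟩)
  have hlow : ∀ u v, T.Adj u v → ∃ w, w ≠ R.r ∧ s(u, v) = s(w, R.par w) ∧
      |(f u : ℤ) - f v| = ad (f w) (f (R.par w)) := by
    intro u v h
    rcases (hR u v).1 h with ⟨h1, rfl⟩ | ⟨h1, rfl⟩
    · exact ⟨u, h1, rfl, abs_sub_nat _ _⟩
    · exact ⟨v, h1, Sym2.eq_swap, by rw [abs_sub_comm]; exact abs_sub_nat _ _⟩
  let U : Finset ℕ := (range (N + 1)).filter (fun x => ∀ w, f w ≠ x)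
  let M : Finset ℕ := (range N).filter
    (fun σ => ∀ a b, T.Adj a b → |(f a : ℤ) - f b| ≠ (N : ℤ) - σ)
  have hU : ∀ x, x ∈ U ↔ x ≤ N ∧ ∀ w, f w ≠ x := by
    intro x
    simp only [U, mem_filter, mem_range]
    constructor
    · rintro ⟨h1, h2⟩; exact ⟨by omega, h2⟩
    · rintro ⟨h1, h2⟩; exact ⟨by omega, h2⟩
  have hM : ∀ σ, σ ∈ M ↔ σ < N ∧
      ∀ a b, T.Adj a b → |(f a : ℤ) - f b| ≠ (N : ℤ) - σ := by
    intro σ
    simp only [M, mem_filter, mem_range]
  refine mem_supertreeSizes_of_labeling T hT N f hf hfN ?_ U M hU hM ?_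
  · intro u v u' v' h h' he
    obtain ⟨w, hw, hw1, hw2⟩ := hlow u v h
    obtain ⟨w', hw', hw1', hw2'⟩ := hlow u' v' h'
    rw [hw2, hw2'] at he
    have hww : w = w' := hd w w' hw hw' (by exact_mod_cast he)
    subst hww
    exact hw1.trans hw1'.symm
  · intro t ht
    have h1 := hdom t ht
    set P := univ.filter fun v => v ≠ R.r ∧ N ≤ t + ad (f v) (f (R.par v)) with hP
    set Q := univ.filter fun v => f v ≤ t with hQ
    let σf : V → ℕ := fun v => N - ad (f v) (f (R.par v))
    -- missing sums
    have h2 : (M.filter (· ≤ t)).card + P.card ≤ t + 1 := by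
      have h3 : M.filter (· ≤ t) ∪ P.image σf ⊆ range (t + 1) := by
        intro x hx
        rw [mem_union, mem_filter, mem_image] at hx
        rw [mem_range]
        rcases hx with h | ⟨v, hv, rfl⟩
        · omega
        · rw [hP, mem_filter] at hv
          show N - ad (f v) (f (R.par v)) < t + 1
          omega
      have h4 : Disjoint (M.filter (· ≤ t)) (P.image σf) := by
        rw [Finset.disjoint_left]
        intro x hx hx'
        rw [mem_filter, hM] at hx
        obtain ⟨⟨hx1, hx2⟩, hx3⟩ := hx
        rw [mem_image] at hx'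
        obtain ⟨v, hv, rfl⟩ := hx'
        rw [hP, mem_filter] at hv
        apply hx2 v (R.par v) (hparadj v hv.2.1)
        have h5 := hadle v
        have h6 : σf v = N - ad (f v) (f (R.par v)) := rfl
        rw [h6, abs_sub_nat]
        omega
      have h5 : (P.image σf).card = P.card := by
        apply card_image_of_injOn
        intro u hu v hv h
        rw [mem_coe, hP, mem_filter] at hu hv
        apply hd u v hu.2.1 hv.2.1
        have h1 := hadle u
        have h2 := hadle v
        have h3 : N - ad (f u) (f (R.par u)) = N - ad (f v) (f (R.par v)) := h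
        omega
      have h6 := card_le_card h3
      rw [card_union_of_disjoint h4, h5, card_range] at h6
      exact h6
    have h3 : t + 1 ≤ (U.filter (· ≤ t)).card + Q.card := by
      have h4 : range (t + 1) ⊆ U.filter (· ≤ t) ∪ Q.image f := by
        intro x hx
        rw [mem_range] at hx
        rw [mem_union, mem_filter, mem_image, hU]
        by_cases h : ∃ v, f v = x
        · obtain ⟨v, rfl⟩ := h
          right
          exact ⟨v, by rw [hQ, mem_filter]; exact ⟨mem_univ _, by omega⟩, rfl⟩
        · left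
          push Not at h
          exact ⟨⟨by omega, h⟩, by omega⟩
      have h5 := (card_le_card h4).trans (card_union_le _ _)
      have h6 := card_image_le (s := Q) (f := f)
      rw [card_range] at h5
      omega
    omega

end Pool.Agent.GracefulLeaf
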