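import Pool.Agent.GracefulLeaf.Count
import Pool.Agent.GracefulLeaf.Complete

set_option autoImplicit false

/-! # A small graceful supertree from flattened chains -/

namespace Pool.Agent.GracefulLeaf

open Finset Pool.Agent.GracefulAsym Pool.Agent.Graceful

theorem div_step (G Y Z b : ℕ) (hG : 0 < G) (h : Y + b * G + G ≤ Z) :
    (Y - 1) / G + b ≤ (Z - 1) / G := by
  rw [Nat.le_div_iff_mul_le hG, Nat.add_mul]
  have := Nat.div_mul_le_self (Y - 1) G
  omega

theorem num_i (n p L G bG h t Y sY M j : ℕ) (hn : 240 * L ≤ n)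
    (hpL : p ≤ 2 * L) (hG10 : 10 ≤ G) (hh : h = n / 2 + 2 * p)
    (h1 : G ≤ bG) (hGb : 12 * bG ≤ t + 1) (hM2p : M ≤ 2 * p) (hM0 : t < h → M = 0)
    (hsY10 : 10 * sY ≤ Y) (hcov : t + 1 ≤ j + sY + M) (hYj : 2 * Y + j ≤ 2 * t + 3) :
    Y + bG + G ≤ t + 1 := by
  rcases Nat.lt_or_ge t h with hth | hth
  · have := hM0 hth
    omega
  · omega

theorem num_iia (n p L G Gp bG c t Y sY M j : ℕ) (hn : 240 * L ≤ n) (hGp1 : 12 * Gp ≤ n) (hc : c = (n + 1) / 2 + 10 * p)
    (h2 : 2 * G ≤ Gp) (hGb : 12 * bG ≤ t + 1) (hM2p : M ≤ 2 * p)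
    (hsY10 : 10 * sY ≤ Y) (hcov : t + 1 ≤ j + sY + M) (hYj : 2 * Y + j ≤ 2 * t + 3)
    (ht : t < c + 10 * L + p) :
    Y + bG + G ≤ c := by
  omega

theorem core {V : Type*} [Fintype V] [DecidableEq V] (T : SimpleGraph V) (hT : T.IsTree)
    (R : RT V) (hR : ∀ u v, T.Adj u v ↔ (u ≠ R.r ∧ R.par u = v) ∨ (v ≠ R.r ∧ R.par v = u))
    {n p L : ℕ} (X : Flat R n p L) (hL : 1 ≤ L) (hn : 240 * L ≤ n) :
    ∃ N ∈ supertreeSizes T, N + 1 ≤ Fintype.card V + 83 * L := by
  classical
  have hpL := X.hp
  have hlast : n - 1 ∈ X.Jt := by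
    by_contra h
    have := (X.par_reg (n - 1) (by omega) h).1
    omega
  have hp1 : 1 ≤ p := by
    rw [← X.card_Jt]
    exact card_pos.2 ⟨_, hlast⟩
  obtain ⟨G, hG⟩ : ∃ G, G = n / (12 * p) := ⟨_, rfl⟩
  have hG10 : 10 ≤ G := by
    rw [hG, Nat.le_div_iff_mul_le (by omega)]
    omega
  have hG0 : 0 < G := by omega
  obtain ⟨Gp, hGp⟩ : ∃ Gp, Gp = G * p := ⟨_, rfl⟩
  have hGp1 : 12 * Gp ≤ n := by
    have h1 := Nat.div_mul_le_self n (12 * p)
    rw [← hG] at h1
    rw [hGp]
    nlinarith
  have hGp2 : n < 12 * Gp + 12 * p := by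
    have h1 := Nat.lt_div_mul_add (a := n) (b := 12 * p) (by omega)
    rw [← hG] at h1
    rw [hGp]
    nlinarith
  have hGGp : G ≤ Gp := by rw [hGp]; nlinarith
  have hG2p : 2 ≤ p → 2 * G ≤ Gp := by intro h; rw [hGp]; nlinarith
  -- parameters
  obtain ⟨c, hc⟩ : ∃ c, c = (n + 1) / 2 + 10 * p := ⟨_, rfl⟩
  obtain ⟨h, hh⟩ : ∃ h, h = n / 2 + 2 * p := ⟨_, rfl⟩
  obtain ⟨ρ, hρ⟩ : ∃ ρ, ρ = 4 * p + 50 * L + 5 := ⟨_, rfl⟩
  obtain ⟨N, hN⟩ : ∃ N, N + 1 = c + ρ + h := ⟨c + ρ + h - 1, by omega⟩
  have hcS : ((range c).filter fun x => 0 < x ∧ G ∣ x).card ≤ 8 * p := by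
    rw [card_mult G hG0]
    have h1 : (c - 1) / G < 8 * p + 1 := by
      rw [Nat.div_lt_iff_lt_mul hG0]
      have h2 : (8 * p + 1) * G = 8 * Gp + G := by rw [hGp]; ring
      omega
    omega
  have hcJ := X.card_J
  obtain ⟨F, r, F0, F1, Fmono, Flow, Fhigh, hr, hrinj, hminj, hmp, hcov, htop⟩ :=
    process n N c ρ h (X.Jb ∪ X.Jt) (fun x => 0 < x ∧ G ∣ x) (by omega)
      (fun k hk => X.J_lt hk) hN (by omega) (by simp)
      (by
        rintro x ⟨hx1, hx2⟩ ⟨_, hx3⟩
        have h1 : G ∣ 1 := (Nat.dvd_add_right hx2).1 hx3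
        have := Nat.le_of_dvd (by omega) h1
        omega)
      (by omega) (by omega) (by omega)
  have P : Proc n N c ρ h (X.Jb ∪ X.Jt) F r :=
    ⟨hN, Fmono, fun k hk hk2 => (Flow k hk hk2).1, Fhigh, hr, hrinj, hminj, hmp⟩
  obtain ⟨f, hinj, hfr, hfp, hmid, hd⟩ := exists_labelling X P (by omega)
  have hcI := X.card_Ir
  have hcV := X.card_le
  refine ⟨N, ?_, by omega⟩
  have hfN : ∀ v, f v ≤ N := by
    intro v
    by_cases h1 : v ∈ X.Rg
    · obtain ⟨k, hk, rfl⟩ := X.mem_Rg.1 h1
      rw [hfr k hk]
      rcases Nat.mod_two_eq_zero_or_one k with h3 | h3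
      · have := (P.rl_low hk h3).2
        omega
      · have := (P.rl_high hk h3).1
        omega
    · have := (hmid v h1).2
      omega
  refine complete T hT R hR f N hinj hfN hd ?_
  intro t ht
  have hJt_last : (X.Jt.filter fun k => k < n - 1).card + 1 ≤ p := by
    have h1 : insert (n - 1) (X.Jt.filter fun k => k < n - 1) ⊆ X.Jt := by
      intro k hk
      rw [mem_insert, mem_filter] at hk
      rcases hk with rfl | hk
      · exact hlast
      · exact hk.1
    have h2 := card_le_card h1
    rw [card_insert_of_notMem (by simp), X.card_Jt] at h2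
    exact h2
  rcases Nat.lt_or_ge t (F (n - 2) + F (n - 1)) with hcase | hcase
  · -- the range of the pair sums
    have hex : ∃ k, t < F k + F (k + 1) := ⟨n - 2, by
      rw [show n - 2 + 1 = n - 1 by omega]; exact hcase⟩
    obtain ⟨j, hj⟩ : ∃ j, j = Nat.find hex := ⟨_, rfl⟩
    have hj1 : t < F j + F (j + 1) := by rw [hj]; exact Nat.find_spec hex
    have hj2 : ∀ k < j, F k + F (k + 1) ≤ t := by
      intro k hk
      rw [hj] at hk
      exact not_lt.1 (Nat.find_min hex hk)
    have hjn : j ≤ n - 2 := by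
      rw [hj]
      apply Nat.find_min'
      rw [show n - 2 + 1 = n - 1 by omega]; exact hcase
    have hj0 : 1 ≤ j := by
      by_contra h0
      have : j = 0 := by omega
      subst this
      rw [F0, F1] at hj1
      omega
    have hjlast := hj2 (j - 1) (by omega)
    rw [show j - 1 + 1 = j by omega] at hjlast
    have hcovj := hcov j hj0 (by omega) t hjlast hj1
    obtain ⟨Y, hY⟩ : ∃ Y, Y = if j % 2 = 1 then t - F j + 1 else F j := ⟨_, rfl⟩
    rw [← hY, card_mult G hG0] at hcovj
    obtain ⟨M, hM⟩ : ∃ M, M = ((X.Jb ∪ X.Jt).filter fun k => msum N F r k ≤ t).card := ⟨_, rfl⟩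
    rw [← hM] at hcovj
    -- lower bound for the odd values
    have hodd : ∀ i, 2 * i + 1 < n → i ≤ F (2 * i + 1) := by
      intro i
      induction i with
      | zero => intro _; omega
      | succ i ih =>
        intro hi
        have h1 := ih (by omega)
        have h2 := Fmono (2 * i + 1) (by omega)
        rw [show 2 * (i + 1) + 1 = 2 * i + 1 + 2 by ring]
        omega
    have hsumk : ∀ k, k + 1 < n → k ≤ F k + F (k + 1) := by
      intro k
      induction k with
      | zero => intro _; omega
      | succ k ih =>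
        intro hk
        have h1 := ih (by omega)
        have h2 := P.sum_lt (show k < k + 1 by omega) hk
        omega
    have hjt : j ≤ t + 1 := by
      have := hsumk (j - 1) (by omega)
      rw [show j - 1 + 1 = j by omega] at this
      omega
    have hYt : Y ≤ t + 1 ∧ Y ≤ c ∧ 2 * Y + j ≤ 2 * t + 3 := by
      rcases Nat.mod_two_eq_zero_or_one j with h3 | h3
      · rw [hY, if_neg (by omega)]
        have h4 := (Flow j (by omega) h3).1
        have h5 := hodd ((j - 2) / 2) (by omega)
        rw [show 2 * ((j - 2) / 2) + 1 = j - 1 by omega] at h5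
        omega
      · rw [hY, if_pos h3]
        have h4 := (Flow (j + 1) (by omega) (by omega)).1
        have h5 := hodd ((j - 1) / 2) (by omega)
        rw [show 2 * ((j - 1) / 2) + 1 = j by omega] at h5
        omega
    obtain ⟨sY, hsY⟩ : ∃ sY, sY = (Y - 1) / G := ⟨_, rfl⟩
    have hsY10 : 10 * sY ≤ Y := by
      have h1 := Nat.div_mul_le_self (Y - 1) G
      rw [← hsY] at h1
      have h2 : sY * 10 ≤ sY * G := Nat.mul_le_mul_left _ hG10
      omega
    have hM2p : M ≤ 2 * p := by
      rw [hM, ← hcJ]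
      exact card_filter_le _ _
    have hM0 : t < h → M = 0 := by
      intro h1
      rw [hM, card_eq_zero, filter_eq_empty_iff]
      intro k hk h2
      have h3 := hr k hk
      unfold msum at h2
      split_ifs at h2 <;> omega
    obtain ⟨b, hb⟩ : ∃ b, b = (X.Jt.filter fun k => k < j).card := ⟨_, rfl⟩
    have hbj : n * b ≤ p * j := by rw [hb]; exact X.bd j (by omega)
    have hbp : b + 1 ≤ p := by
      have h1 : (X.Jt.filter fun k => k < j).card ≤ (X.Jt.filter fun k => k < n - 1).card := by
        apply card_le_card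
        intro k hk
        rw [mem_filter] at hk ⊢
        exact ⟨hk.1, by omega⟩
      omega
    have hGb : 12 * (b * G) ≤ t + 1 := by
      have h1 : p * (12 * (b * G)) ≤ p * j := by
        calc p * (12 * (b * G)) = 12 * Gp * b := by rw [hGp]; ring
          _ ≤ n * b := Nat.mul_le_mul_right _ hGp1
          _ ≤ p * j := hbj
      have h2 := Nat.le_of_mul_le_mul_left h1 (by omega)
      omega
    have hedges := count_edges X P hfr hfp t j (fun k hk => ⟨by omega, hj2 k hk⟩)
    rw [← hM, ← hb] at hedges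
    have hlow := count_low X P hinj hfr (fun x => 0 < x ∧ G ∣ x)
      (fun k hk hk2 => (Flow k hk hk2).2) t
    rw [card_mult G hG0] at hlow
    obtain ⟨hmid1, hmid2⟩ := count_mid X hinj hmid t
    rw [← hsY] at hcovj
    -- `b ≥ 1` implies `G ≤ b * G`
    have hbG : 1 ≤ b → G ≤ b * G := by intro h; nlinarith
    rcases Nat.lt_or_ge t c with htc | htc
    · -- (i)
      rw [min_eq_left (by omega)] at hlow
      have hkey : sY + b ≤ (t + 1 - 1) / G := by
        rcases Nat.eq_zero_or_pos b with hb0 | hb0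
        · rw [hb0, hsY, Nat.add_zero]
          apply Nat.div_le_div_right
          omega
        · rw [hsY]
          apply div_step G Y (t + 1) b hG0
          exact num_i n p L G (b * G) h t Y sY M j hn hpL hG10 hh (hbG hb0) hGb hM2p hM0 hsY10
            hcovj hYt.2.2
      clear hex hj hcov Flow Fhigh
      omega
    · rw [min_eq_right (by omega)] at hlow
      rcases Nat.lt_or_ge t (c + 10 * L + p) with htc2 | htc2
      · have hkey : sY + b ≤ (c - 1) / G := by
          rcases Nat.eq_zero_or_pos b with hb0 | hb0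
          · rw [hb0, hsY, Nat.add_zero]
            apply Nat.div_le_div_right
            omega
          · rw [hsY]
            apply div_step G Y c b hG0
            exact num_iia n p L G Gp (b * G) c t Y sY M j hn hGp1 hc
              (hG2p (le_trans (Nat.succ_le_succ hb0) hbp)) hGb hM2p hsY10 hcovj hYt.2.2 htc2
        omega
      · have hkey : sY ≤ (c - 1) / G := by
          rw [hsY]
          apply Nat.div_le_div_right
          omega
        omega
  · -- beyond the pair sums
    obtain ⟨q, hq⟩ : ∃ q, q = min (h / 4) (N - t) := ⟨_, rfl⟩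
    have hq1 : q ≤ h / 4 := by omega
    have hq2 : q ≤ N - t := by omega
    have htopq := count_top X hfr t q (fun i hi => htop i (by omega) (by omega))
      (fun i hi => by omega) (by omega)
    rcases Nat.lt_or_ge (h / 4) (N - t) with hB | hB
    · have hedges := count_edges X P hfr hfp t (n - 1) (fun k hk => ⟨by omega, by
        rcases Nat.lt_or_ge k (n - 2) with h1 | h1
        · have := P.sum_lt h1 (by omega)
          rw [show n - 2 + 1 = n - 1 by omega] at this
          omega
        · have h2 : k = n - 2 := by omega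
          rw [h2, show n - 2 + 1 = n - 1 by omega]
          exact hcase⟩)
      omega
    · -- few differences left
      have h1 : (univ.filter fun v => v ≠ R.r ∧ ¬ N ≤ t + ad (f v) (f (R.par v))).card ≤
          N - t - 1 := by
        rw [← Nat.card_Ico]
        apply card_le_card_of_injOn (fun v => ad (f v) (f (R.par v)))
        · intro v hv
          rw [mem_coe, mem_filter] at hv
          rw [mem_coe, mem_Ico]
          have h2 : f v ≠ f (R.par v) := by
            intro h3
            have h4 := hinj h3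
            have h5 := R.dep_par v hv.2.1
            rw [← h4] at h5
            omega
          have h3 := ad_pos h2
          show 1 ≤ ad (f v) (f (R.par v)) ∧ ad (f v) (f (R.par v)) < N - t
          exact ⟨h3, by omega⟩
        · intro v hv w hw hvw
          rw [mem_coe, mem_filter] at hv hw
          exact hd v w hv.2.1 hw.2.1 hvw
      have h2 : (univ.filter fun v => v ≠ R.r ∧ N ≤ t + ad (f v) (f (R.par v))).card +
          (univ.filter fun v => v ≠ R.r ∧ ¬ N ≤ t + ad (f v) (f (R.par v))).card + 1 =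
          Fintype.card V := by
        have h3 := card_filter_add_card_filter_not (s := univ.erase R.r)
          (fun v => N ≤ t + ad (f v) (f (R.par v)))
        have h4 : ((univ.erase R.r).filter fun v => N ≤ t + ad (f v) (f (R.par v))) =
            (univ.filter fun v => v ≠ R.r ∧ N ≤ t + ad (f v) (f (R.par v))) := by
          ext v; simp
        have h5 : ((univ.erase R.r).filter fun v => ¬ N ≤ t + ad (f v) (f (R.par v))) =
            (univ.filter fun v => v ≠ R.r ∧ ¬ N ≤ t + ad (f v) (f (R.par v))) := by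
          ext v; simp
        rw [h4, h5, card_erase_of_mem (mem_univ _), card_univ] at h3
        have h6 : 0 < Fintype.card V := Fintype.card_pos_iff.2 ⟨R.r⟩
        omega
      omega

end Pool.Agent.GracefulLeaf
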