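import Pool.Agent.GracefulLeaf.Label

set_option autoImplicit false

/-! # Counting labels and differences -/

namespace Pool.Agent.GracefulLeaf

open Finset Pool.Agent.GracefulAsym

theorem card_mult (G : ℕ) (hG : 0 < G) (X : ℕ) :
    ((range X).filter fun x => 0 < x ∧ G ∣ x).card = (X - 1) / G := by
  have h1 : ((range X).filter fun x => 0 < x ∧ G ∣ x) =
      (range ((X - 1) / G)).image (fun i => G * (i + 1)) := by
    ext x
    rw [mem_filter, mem_image, mem_range]
    constructor
    · rintro ⟨h1, h2, i, rfl⟩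
      rcases i with _ | i
      · omega
      · refine ⟨i, ?_, rfl⟩
        rw [mem_range]
        have h3 : i + 1 ≤ (X - 1) / G := by
          rw [Nat.le_div_iff_mul_le hG]
          have : (i + 1) * G = G * (i + 1) := Nat.mul_comm _ _
          omega
        omega
    · rintro ⟨i, hi, rfl⟩
      rw [mem_range] at hi
      have h3 : i + 1 ≤ (X - 1) / G := by omega
      rw [Nat.le_div_iff_mul_le hG] at h3
      have h4 : (i + 1) * G = G * (i + 1) := Nat.mul_comm _ _
      have h5 : 0 < G * (i + 1) := by positivity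
      exact ⟨by omega, h5, dvd_mul_right _ _⟩
  rw [h1, card_image_of_injective, card_range]
  intro a b hab
  have : a + 1 = b + 1 := Nat.eq_of_mul_eq_mul_left hG hab
  omega

section

variable {V : Type*} [Fintype V] [DecidableEq V] {R : RT V} {n p L : ℕ} (X : Flat R n p L)
  {N c ρ h : ℕ} {F r : ℕ → ℕ} (P : Proc n N c ρ h (X.Jb ∪ X.Jt) F r)
  {f : V → ℕ} (hinj : Function.Injective f) (hfr : ∀ k < n, f (X.reg k) = rl N F k)
  (hfp : ∀ k ∈ X.Jb ∪ X.Jt, f (X.pr k) = r k) (hmid : ∀ v, v ∉ X.Rg → c ≤ f v ∧ f v < c + ρ)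

include P hinj hfr in
theorem count_low (S : ℕ → Prop) [DecidablePred S] (hS : ∀ k < n, k % 2 = 0 → ¬ S (F k)) (t : ℕ) :
    (univ.filter fun v => f v ≤ t).card + ((range (min (t + 1) c)).filter S).card ≤
      min (t + 1) c + (univ.filter fun v => v ∉ X.Rg ∧ f v ≤ t).card + (t + 1 - (c + ρ)) := by
  classical
  have h1 : (univ.filter fun v => f v ≤ t) ⊆
      ((univ.filter fun v => v ∈ X.Rg ∧ f v ≤ t ∧ f v < c) ∪
        (univ.filter fun v => v ∉ X.Rg ∧ f v ≤ t)) ∪
      (univ.filter fun v => c + ρ ≤ f v ∧ f v ≤ t) := by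
    intro v hv
    simp only [mem_filter, mem_univ, true_and, mem_union] at hv ⊢
    by_cases h2 : v ∈ X.Rg
    · obtain ⟨k, hk, rfl⟩ := X.mem_Rg.1 h2
      rcases Nat.mod_two_eq_zero_or_one k with h3 | h3
      · have := P.rl_low hk h3
        rw [← hfr k hk] at this
        left; left; exact ⟨h2, hv, this.2⟩
      · have := P.rl_high hk h3
        rw [← hfr k hk] at this
        right; exact ⟨this.2, hv⟩
    · left; right; exact ⟨h2, hv⟩
  have h2 := (card_le_card h1).trans (card_union_le _ _)
  have h3 := card_union_le (univ.filter fun v => v ∈ X.Rg ∧ f v ≤ t ∧ f v < c)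
        (univ.filter fun v => v ∉ X.Rg ∧ f v ≤ t)
  have h4 : (univ.filter fun v => c + ρ ≤ f v ∧ f v ≤ t).card ≤ t + 1 - (c + ρ) := by
    rw [← Nat.card_Ico]
    apply card_le_card_of_injOn f
    · intro v hv
      rw [mem_coe, mem_filter] at hv
      rw [mem_coe, mem_Ico]
      omega
    · exact hinj.injOn
  have h5 : (univ.filter fun v => v ∈ X.Rg ∧ f v ≤ t ∧ f v < c).card +
      ((range (min (t + 1) c)).filter S).card ≤ min (t + 1) c := by
    have h6 : ((univ.filter fun v => v ∈ X.Rg ∧ f v ≤ t ∧ f v < c).image f).card =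
        (univ.filter fun v => v ∈ X.Rg ∧ f v ≤ t ∧ f v < c).card :=
      card_image_of_injective _ hinj
    rw [← h6, ← card_union_of_disjoint]
    · have h7 : ((univ.filter fun v => v ∈ X.Rg ∧ f v ≤ t ∧ f v < c).image f) ∪
          ((range (min (t + 1) c)).filter S) ⊆ range (min (t + 1) c) := by
        intro x hx
        rw [mem_union, mem_image, mem_filter] at hx
        rcases hx with ⟨v, hv, rfl⟩ | hx
        · rw [mem_filter] at hv
          rw [mem_range]
          omega
        · exact hx.1
      have := card_le_card h7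
      rwa [card_range] at this
    · rw [Finset.disjoint_left]
      intro x hx hx'
      rw [mem_image] at hx
      obtain ⟨v, hv, rfl⟩ := hx
      rw [mem_filter] at hv hx'
      obtain ⟨_, h8, h9, h10⟩ := hv
      obtain ⟨k, hk, rfl⟩ := X.mem_Rg.1 h8
      rcases Nat.mod_two_eq_zero_or_one k with h3 | h3
      · have := P.rl_low hk h3
        rw [hfr k hk, this.1] at hx'
        exact hS k hk h3 hx'.2
      · have := P.rl_high hk h3
        rw [hfr k hk] at h10
        omega
  omega

include hinj hmid in
theorem count_mid (t : ℕ) :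
    (univ.filter fun v => v ∉ X.Rg ∧ f v ≤ t).card ≤ 10 * L ∧
      (univ.filter fun v => v ∉ X.Rg ∧ f v ≤ t).card ≤ t + 1 - c := by
  constructor
  · have h1 : (univ.filter fun v => v ∉ X.Rg ∧ f v ≤ t) ⊆ univ \ X.Rg := by
      intro v hv
      rw [mem_filter] at hv
      rw [mem_sdiff]
      exact ⟨mem_univ _, hv.2.1⟩
    have h2 := card_le_card h1
    have h3 := card_sdiff_add_card_eq_card (subset_univ X.Rg)
    rw [X.card_Rg, card_univ] at h3
    have := X.card_le
    omega
  · rw [← Nat.card_Ico]
    apply card_le_card_of_injOn f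
    · intro v hv
      rw [mem_coe, mem_filter] at hv
      rw [mem_coe, mem_Ico]
      have := hmid v hv.2.1
      omega
    · exact hinj.injOn

include P hfr hfp in
theorem count_edges (t j : ℕ) (hj : ∀ k < j, k + 1 < n ∧ F k + F (k + 1) ≤ t) :
    j + ((X.Jb ∪ X.Jt).filter fun k => msum N F r k ≤ t).card ≤
      (univ.filter fun v => v ≠ R.r ∧ N ≤ t + ad (f v) (f (R.par v))).card +
        (X.Jt.filter fun k => k < j).card := by
  classical
  let jv : ℕ → V := fun k => if k ∈ X.Jt then X.reg k else X.pr k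
  have hjv : Set.InjOn jv ((X.Jb ∪ X.Jt : Finset ℕ) : Set ℕ) := by
    intro k hk k' hk' h1
    rw [mem_coe] at hk hk'
    simp only [jv] at h1
    split_ifs at h1 with h2 h3 h3
    · exact X.reg_inj _ (X.J_lt hk) _ (X.J_lt hk') h1
    · exact absurd h1 (X.reg_pr _ (X.J_lt hk) _ hk')
    · exact absurd h1.symm (X.reg_pr _ (X.J_lt hk') _ hk)
    · exact X.pr_inj _ hk _ hk' h1
  have h1 : ((range j).filter fun k => k ∉ X.Jt).image X.reg ∪
      ((X.Jb ∪ X.Jt).filter fun k => msum N F r k ≤ t).image jv ⊆
      (univ.filter fun v => v ≠ R.r ∧ N ≤ t + ad (f v) (f (R.par v))) := by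
    intro v hv
    rw [mem_union, mem_image, mem_image] at hv
    rw [mem_filter]
    refine ⟨mem_univ _, ?_⟩
    rcases hv with ⟨k, hk, rfl⟩ | ⟨k, hk, rfl⟩
    · rw [mem_filter, mem_range] at hk
      obtain ⟨h2, h3⟩ := hj k hk.1
      obtain ⟨h4, h5, h6⟩ := X.par_reg k (by omega) hk.2
      refine ⟨h5, ?_⟩
      rw [h6, hfr k (by omega), hfr (k + 1) h4]
      have := P.ad_reg h2
      omega
    · rw [mem_filter] at hk
      have h2 := P.ad_joint hk.1 (X.J_lt hk.1)
      simp only [jv]
      split_ifs with h3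
      · obtain ⟨h4, h5⟩ := X.par_top k h3
        refine ⟨h4, ?_⟩
        rw [h5, hfr k (X.J_lt hk.1), hfp k hk.1]
        omega
      · have h4 : k ∈ X.Jb := by
          have := hk.1
          rw [mem_union] at this
          exact this.resolve_right h3
        obtain ⟨h5, h6⟩ := X.par_bot k h4
        refine ⟨h5, ?_⟩
        rw [h6, hfr k (X.J_lt hk.1), hfp k hk.1, ad_comm]
        omega
  have h2 : Disjoint (((range j).filter fun k => k ∉ X.Jt).image X.reg)
      (((X.Jb ∪ X.Jt).filter fun k => msum N F r k ≤ t).image jv) := by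
    rw [Finset.disjoint_left]
    intro v hv hv'
    rw [mem_image] at hv hv'
    obtain ⟨k, hk, rfl⟩ := hv
    obtain ⟨k', hk', h3⟩ := hv'
    rw [mem_filter, mem_range] at hk
    rw [mem_filter] at hk'
    have h4 := (hj k hk.1).1
    simp only [jv] at h3
    split_ifs at h3 with h5
    · have := X.reg_inj k' (X.J_lt hk'.1) k (by omega) h3
      rw [this] at h5
      exact hk.2 h5
    · exact X.reg_pr k (by omega) k' hk'.1 h3.symm
  have h3 := card_le_card h1
  rw [card_union_of_disjoint h2, card_image_of_injOn (hjv.mono (by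
    intro k hk
    rw [mem_coe, mem_filter] at hk
    exact hk.1)), card_image_of_injOn (by
    intro k hk k' hk' h4
    rw [mem_coe, mem_filter, mem_range] at hk hk'
    have h5 := (hj k hk.1).1
    have h6 := (hj k' hk'.1).1
    exact X.reg_inj k (by omega) k' (by omega) h4)] at h3
  have h4 : ((range j).filter fun k => k ∉ X.Jt).card + (X.Jt.filter fun k => k < j).card = j := by
    have h5 : (X.Jt.filter fun k => k < j) = (range j).filter fun k => k ∈ X.Jt := by
      ext k
      simp only [mem_filter, mem_range]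
      tauto
    rw [h5, add_comm, card_filter_add_card_filter_not, card_range]
  omega

include hfr in
theorem count_top (t q : ℕ) (hF : ∀ i < q, F (2 * i + 1) = i) (hq : ∀ i < q, 2 * i + 1 < n)
    (hqt : t + q ≤ N) :
    (univ.filter fun v => f v ≤ t).card + q ≤ Fintype.card V := by
  classical
  have h1 : ((range q).image fun i => X.reg (2 * i + 1)).card = q := by
    rw [card_image_of_injOn, card_range]
    intro i hi i' hi' h2
    rw [coe_range, Set.mem_Iio] at hi hi'
    have := X.reg_inj _ (hq i hi) _ (hq i' hi') h2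
    omega
  have h2 : Disjoint (univ.filter fun v => f v ≤ t) ((range q).image fun i => X.reg (2 * i + 1)) := by
    rw [Finset.disjoint_left]
    intro v hv hv'
    rw [mem_filter] at hv
    rw [mem_image] at hv'
    obtain ⟨i, hi, rfl⟩ := hv'
    rw [mem_range] at hi
    have h3 := hfr _ (hq i hi)
    unfold rl at h3
    rw [if_neg (by omega), hF i hi] at h3
    omega
  rw [← h1, ← card_union_of_disjoint h2]
  exact card_le_univ _

end

end Pool.Agent.GracefulLeaf
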