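import Pool.Agent.GracefulAsym.Defs

set_option autoImplicit false

/-! # Trees with few leaves: decomposition into long chains -/

namespace Pool.Agent.GracefulLeaf

open Finset Pool.Agent.GracefulAsym

/-- `p` long chains of vertices with exactly one child, sorted by decreasing length. The `i`-th
chain contains the regular vertices `w i 0, …, w i (s i - 1)` (from the bottom to the top), with
the private vertex `yb i` below and the private vertex `yt i` above. `L` is the number of vertices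
without children. -/
structure Chains {V : Type*} [Fintype V] [DecidableEq V] (R : RT V) (L : ℕ) where
  p : ℕ
  s : ℕ → ℕ
  w : ℕ → ℕ → V
  yb : ℕ → V
  yt : ℕ → V
  hp : p ≤ 2 * L
  hs : ∀ i < p, 2 ≤ s i
  hmono : ∀ i j, i ≤ j → j < p → s j ≤ s i
  w_inj : ∀ i < p, ∀ i' < p, ∀ j < s i, ∀ j' < s i', w i j = w i' j' → i = i' ∧ j = j'
  yb_inj : ∀ i < p, ∀ i' < p, yb i = yb i' → i = i'
  yt_inj : ∀ i < p, ∀ i' < p, yt i = yt i' → i = i'
  yb_yt : ∀ i < p, ∀ i' < p, yb i ≠ yt i'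
  w_yb : ∀ i < p, ∀ i' < p, ∀ j < s i, w i j ≠ yb i'
  w_yt : ∀ i < p, ∀ i' < p, ∀ j < s i, w i j ≠ yt i'
  par_w : ∀ i < p, ∀ j, j + 1 < s i → w i j ≠ R.r ∧ R.par (w i j) = w i (j + 1)
  par_top : ∀ i < p, w i (s i - 1) ≠ R.r ∧ R.par (w i (s i - 1)) = yt i
  par_yb : ∀ i < p, yb i ≠ R.r ∧ R.par (yb i) = w i 0
  kid_w : ∀ i < p, ∀ j, j + 1 < s i → ∀ c, c ≠ R.r → R.par c = w i (j + 1) → c = w i j
  kid_w0 : ∀ i < p, ∀ c, c ≠ R.r → R.par c = w i 0 → c = yb i
  kid_yt : ∀ i < p, ∀ c, c ≠ R.r → R.par c = yt i → c = w i (s i - 1)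
  /-- the parent of `yt i` has only one child -/
  par_yt : ∀ i < p, yt i ≠ R.r ∧ ∀ c, c ≠ R.r → R.par c = R.par (yt i) → c = yt i
  yt_yb : ∀ i < p, ∀ i' < p, R.par (yt i) ≠ yb i'
  card_le : Fintype.card V ≤ ∑ i ∈ range p, s i + 10 * L

end Pool.Agent.GracefulLeaf
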