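import Pool.Agent.GracefulAsym.Defs

set_option autoImplicit false

/-! # Flattened chains -/

namespace Pool.Agent.GracefulLeaf

open Finset Pool.Agent.GracefulAsym

/-- Flattened chains: `reg k`, `k < n`, are the regular vertices, chain after chain, each chain from
its bottom to its top; `Jb` (`Jt`) is the set of the indices of the bottom (top) vertices of the
chains, and `pr k` is the private vertex attached to `reg k` for `k ∈ Jb ∪ Jt`. -/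
structure Flat {V : Type*} [Fintype V] [DecidableEq V] (R : RT V) (n p L : ℕ) where
  reg : ℕ → V
  pr : ℕ → V
  Jb : Finset ℕ
  Jt : Finset ℕ
  hp : p ≤ 2 * L
  Jb_lt : ∀ k ∈ Jb, k < n
  Jt_lt : ∀ k ∈ Jt, k < n
  disj : Disjoint Jb Jt
  card_Jb : Jb.card = p
  card_Jt : Jt.card = p
  reg_inj : ∀ k < n, ∀ k' < n, reg k = reg k' → k = k'
  pr_inj : ∀ k ∈ Jb ∪ Jt, ∀ k' ∈ Jb ∪ Jt, pr k = pr k' → k = k'
  reg_pr : ∀ k < n, ∀ k' ∈ Jb ∪ Jt, reg k ≠ pr k'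
  par_reg : ∀ k < n, k ∉ Jt → k + 1 < n ∧ reg k ≠ R.r ∧ R.par (reg k) = reg (k + 1)
  par_top : ∀ k ∈ Jt, reg k ≠ R.r ∧ R.par (reg k) = pr k
  par_bot : ∀ k ∈ Jb, pr k ≠ R.r ∧ R.par (pr k) = reg k
  kid_reg : ∀ k < n, ∀ c, c ≠ R.r → R.par c = reg k →
    (∃ k' < n, c = reg k') ∨ (∃ k' ∈ Jb, c = pr k')
  par_prt : ∀ k ∈ Jt, pr k ≠ R.r ∧ (∀ k' < n, R.par (pr k) ≠ reg k') ∧
    (∀ k' ∈ Jb ∪ Jt, R.par (pr k) ≠ pr k') ∧ ∀ c, c ≠ R.r → R.par c = R.par (pr k) → c = pr k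
  card_le : Fintype.card V ≤ n + 10 * L
  /-- the chains are sorted by decreasing length -/
  bd : ∀ j ≤ n, n * (Jt.filter fun k => k < j).card ≤ p * j

end Pool.Agent.GracefulLeaf
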