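import Pool.Agent.GracefulLeaf.Chains
import Pool.Agent.GracefulLeaf.FlatDefs

set_option autoImplicit false

/-! # Flattening the chains -/

namespace Pool.Agent.GracefulLeaf

open Finset Pool.Agent.GracefulAsym

/-- the sum of the `b` largest terms -/
theorem avg_le (s : ℕ → ℕ) (p b : ℕ) (hb : b ≤ p)
    (hmono : ∀ i j, i ≤ j → j < p → s j ≤ s i) :
    (∑ i ∈ range p, s i) * b ≤ p * ∑ i ∈ range b, s i := by
  obtain ⟨q, rfl⟩ : ∃ q, p = b + q := ⟨p - b, by omega⟩
  have h1 : ∑ i ∈ range (b + q), s i = ∑ i ∈ range b, s i + ∑ i ∈ range q, s (b + i) :=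
    sum_range_add s b q
  rw [h1]
  rcases Nat.eq_zero_or_pos q with hq | hq
  · subst hq
    simp only [range_zero, sum_empty, add_zero]
    rw [mul_comm]
  have h2 : ∑ i ∈ range q, s (b + i) ≤ q * s b := by
    have := sum_le_card_nsmul (range q) (fun i => s (b + i)) (s b) (by
      intro i hi
      rw [mem_range] at hi
      exact hmono b (b + i) (by omega) (by omega))
    rwa [card_range, smul_eq_mul] at this
  have h3 : b * s b ≤ ∑ i ∈ range b, s i := by
    have := card_nsmul_le_sum (range b) s (s b) (by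
      intro i hi
      rw [mem_range] at hi
      exact hmono i b (by omega) (by omega))
    rwa [card_range, smul_eq_mul] at this
  calc (∑ i ∈ range b, s i + ∑ i ∈ range q, s (b + i)) * b
      = b * ∑ i ∈ range b, s i + b * ∑ i ∈ range q, s (b + i) := by ring
    _ ≤ b * ∑ i ∈ range b, s i + b * (q * s b) := by gcongr
    _ = b * ∑ i ∈ range b, s i + q * (b * s b) := by ring
    _ ≤ b * ∑ i ∈ range b, s i + q * ∑ i ∈ range b, s i := by gcongr
    _ = (b + q) * ∑ i ∈ range b, s i := by ring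

section

variable (s : ℕ → ℕ) (p : ℕ)

/-- the offset of the `i`-th chain -/
def off (i : ℕ) : ℕ := ∑ i' ∈ range i, s i'

theorem off_succ (i : ℕ) : off s (i + 1) = off s i + s i := sum_range_succ _ _

theorem off_mono : Monotone (off s) := by
  intro i j hij
  unfold off
  exact sum_le_sum_of_subset (range_mono hij)

/-- the chain containing the index `k` -/
def ci (k : ℕ) : ℕ := Nat.findGreatest (fun i => off s i ≤ k) p

theorem ci_le (k : ℕ) : ci s p k ≤ p := Nat.findGreatest_le _

theorem off_ci_le (k : ℕ) : off s (ci s p k) ≤ k := by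
  unfold ci
  exact Nat.findGreatest_spec (P := fun i => off s i ≤ k) (m := 0) (Nat.zero_le _) (by simp [off])

theorem ci_lt {k : ℕ} (hk : k < off s p) : ci s p k < p := by
  rcases lt_or_eq_of_le (ci_le s p k) with h | h
  · exact h
  · exfalso
    have := off_ci_le s p k
    rw [h] at this
    omega

theorem lt_off_ci {k : ℕ} (hk : k < off s p) : k < off s (ci s p k + 1) := by
  by_contra h
  push Not at h
  have h1 := ci_lt s p hk
  have h2 : ci s p k + 1 ≤ ci s p k :=
    Nat.le_findGreatest (P := fun i => off s i ≤ k) (by omega) h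
  omega

theorem ci_eq {k i : ℕ} (hi : i < p) (h1 : off s i ≤ k) (h2 : k < off s (i + 1)) :
    ci s p k = i := by
  have hk : k < off s p := lt_of_lt_of_le h2 (off_mono s (by omega))
  have h3 := off_ci_le s p k
  have h4 := lt_off_ci s p hk
  by_contra hne
  rcases lt_or_gt_of_ne hne with h | h
  · have := off_mono s (show ci s p k + 1 ≤ i by omega)
    omega
  · have := off_mono s (show i + 1 ≤ ci s p k by omega)
    omega

end

/-- the flattened chains -/
theorem exists_flat {V : Type*} [Fintype V] [DecidableEq V] (R : RT V) :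
    ∃ n p, Nonempty (Flat R n p (univ.filter fun v => R.ch v = 0).card) := by
  classical
  obtain ⟨C⟩ := exists_chains R
  obtain ⟨p, s, w, yb, yt, hp, hs, hmono, w_inj, yb_inj, yt_inj, yb_yt, w_yb, w_yt, par_w, par_top,
    par_yb, kid_w, kid_w0, kid_yt, par_yt, yt_yb, card_le⟩ := C
  -- positions
  have hpos : ∀ i < p, ∀ j < s i, off s i + j < off s p ∧ ci s p (off s i + j) = i := by
    intro i hi j hj
    have h1 := off_succ s i
    have h2 := off_mono s (show i + 1 ≤ p by omega)
    exact ⟨by omega, ci_eq s p hi (by omega) (by omega)⟩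
  have hdec : ∀ k < off s p, ∃ i < p, ∃ j < s i, k = off s i + j := by
    intro k hk
    have h1 := off_ci_le s p k
    have h2 := lt_off_ci s p hk
    have h3 := off_succ s (ci s p k)
    exact ⟨ci s p k, ci_lt s p hk, k - off s (ci s p k), by omega, by omega⟩
  have hoff : ∀ i < p, ∀ i' < p, ∀ j < s i, ∀ j' < s i', off s i + j = off s i' + j' →
      i = i' ∧ j = j' := by
    intro i hi i' hi' j hj j' hj' h
    have h1 := (hpos i hi j hj).2
    have h2 := (hpos i' hi' j' hj').2
    rw [h] at h1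
    have h3 : i = i' := h1.symm.trans h2
    subst h3
    exact ⟨rfl, by omega⟩
  let reg : ℕ → V := fun k => w (ci s p k) (k - off s (ci s p k))
  have hreg : ∀ i < p, ∀ j < s i, reg (off s i + j) = w i j := by
    intro i hi j hj
    simp only [reg]
    rw [(hpos i hi j hj).2]
    congr 1
    omega
  let Jb : Finset ℕ := (range p).image (off s)
  let Jt : Finset ℕ := (range p).image (fun i => off s i + (s i - 1))
  have hJb : ∀ k, k ∈ Jb ↔ ∃ i < p, k = off s i + 0 := by
    intro k
    simp only [Jb, mem_image, mem_range, add_zero]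
    constructor
    · rintro ⟨i, hi, rfl⟩
      exact ⟨i, hi, rfl⟩
    · rintro ⟨i, hi, rfl⟩
      exact ⟨i, hi, rfl⟩
  have hJt : ∀ k, k ∈ Jt ↔ ∃ i < p, k = off s i + (s i - 1) := by
    intro k
    simp only [Jt, mem_image, mem_range]
    constructor
    · rintro ⟨i, hi, rfl⟩
      exact ⟨i, hi, rfl⟩
    · rintro ⟨i, hi, rfl⟩
      exact ⟨i, hi, rfl⟩
  have hdisj : ∀ k, k ∈ Jb → k ∉ Jt := by
    intro k h1 h2
    obtain ⟨i, hi, rfl⟩ := (hJb k).1 h1
    obtain ⟨i', hi', h3⟩ := (hJt _).1 h2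
    have h4 := hs i hi
    have h5 := hs i' hi'
    obtain ⟨h6, h7⟩ := hoff i hi i' hi' 0 (by omega) (s i' - 1) (by omega) h3
    omega
  let pr : ℕ → V := fun k => if k ∈ Jb then yb (ci s p k) else yt (ci s p k)
  have hprb : ∀ i < p, pr (off s i + 0) = yb i := by
    intro i hi
    have h1 : off s i + 0 ∈ Jb := (hJb _).2 ⟨i, hi, rfl⟩
    simp only [pr, h1, if_true]
    rw [(hpos i hi 0 (by have := hs i hi; omega)).2]
  have hprt : ∀ i < p, pr (off s i + (s i - 1)) = yt i := by
    intro i hi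
    have h1 : off s i + (s i - 1) ∈ Jt := (hJt _).2 ⟨i, hi, rfl⟩
    have h2 : off s i + (s i - 1) ∉ Jb := fun h => hdisj _ h h1
    simp only [pr, h2, if_false]
    rw [(hpos i hi (s i - 1) (by have := hs i hi; omega)).2]
  have hreg' : ∀ k < off s p, ∃ i < p, ∃ j < s i, k = off s i + j ∧ reg k = w i j := by
    intro k hk
    obtain ⟨i, hi, j, hj, rfl⟩ := hdec k hk
    exact ⟨i, hi, j, hj, rfl, hreg i hi j hj⟩
  have hpr' : ∀ k ∈ Jb ∪ Jt, (∃ i < p, k = off s i + 0 ∧ pr k = yb i) ∨
      (∃ i < p, k = off s i + (s i - 1) ∧ pr k = yt i) := by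
    intro k hk
    rw [mem_union] at hk
    rcases hk with hk | hk
    · obtain ⟨i, hi, rfl⟩ := (hJb k).1 hk
      exact Or.inl ⟨i, hi, rfl, hprb i hi⟩
    · obtain ⟨i, hi, rfl⟩ := (hJt k).1 hk
      exact Or.inr ⟨i, hi, rfl, hprt i hi⟩
  refine ⟨off s p, p, ⟨{
    reg := reg
    pr := pr
    Jb := Jb
    Jt := Jt
    hp := hp
    Jb_lt := ?_
    Jt_lt := ?_
    disj := ?_
    card_Jb := ?_
    card_Jt := ?_
    reg_inj := ?_
    pr_inj := ?_
    reg_pr := ?_
    par_reg := ?_
    par_top := ?_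
    par_bot := ?_
    kid_reg := ?_
    par_prt := ?_
    card_le := card_le
    bd := ?_ }⟩⟩
  · intro k hk
    obtain ⟨i, hi, rfl⟩ := (hJb k).1 hk
    have := hs i hi
    exact (hpos i hi 0 (by omega)).1
  · intro k hk
    obtain ⟨i, hi, rfl⟩ := (hJt k).1 hk
    have := hs i hi
    exact (hpos i hi (s i - 1) (by omega)).1
  · rw [Finset.disjoint_left]
    exact fun k h1 h2 => hdisj k h1 h2
  · simp only [Jb]
    rw [card_image_of_injOn, card_range]
    intro i hi i' hi' h
    rw [coe_range, Set.mem_Iio] at hi hi'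
    have h1 := hs i hi
    have h2 := hs i' hi'
    exact (hoff i hi i' hi' 0 (by omega) 0 (by omega) h).1
  · simp only [Jt]
    rw [card_image_of_injOn, card_range]
    intro i hi i' hi' h
    rw [coe_range, Set.mem_Iio] at hi hi'
    have h1 := hs i hi
    have h2 := hs i' hi'
    exact (hoff i hi i' hi' (s i - 1) (by omega) (s i' - 1) (by omega) h).1
  · intro k hk k' hk' h
    obtain ⟨i, hi, j, hj, rfl, h1⟩ := hreg' k hk
    obtain ⟨i', hi', j', hj', rfl, h2⟩ := hreg' k' hk'
    rw [h1, h2] at h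
    obtain ⟨h3, h4⟩ := w_inj i hi i' hi' j hj j' hj' h
    subst h3; subst h4
    rfl
  · intro k hk k' hk' h
    rcases hpr' k hk with ⟨i, hi, rfl, h1⟩ | ⟨i, hi, rfl, h1⟩ <;>
      rcases hpr' k' hk' with ⟨i', hi', rfl, h2⟩ | ⟨i', hi', rfl, h2⟩ <;> rw [h1, h2] at h
    · rw [yb_inj i hi i' hi' h]
    · exact absurd h (yb_yt i hi i' hi')
    · exact absurd h.symm (yb_yt i' hi' i hi)
    · rw [yt_inj i hi i' hi' h]
  · intro k hk k' hk' h
    obtain ⟨i, hi, j, hj, rfl, h1⟩ := hreg' k hk
    rw [h1] at h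
    rcases hpr' k' hk' with ⟨i', hi', rfl, h2⟩ | ⟨i', hi', rfl, h2⟩ <;> rw [h2] at h
    · exact w_yb i hi i' hi' j hj h
    · exact w_yt i hi i' hi' j hj h
  · intro k hk hkt
    obtain ⟨i, hi, j, hj, rfl, h1⟩ := hreg' k hk
    have h2 : j + 1 < s i := by
      by_contra h
      apply hkt
      rw [hJt]
      exact ⟨i, hi, by omega⟩
    have h3 := hpos i hi (j + 1) h2
    have h4 := hreg i hi (j + 1) h2
    rw [← add_assoc] at h3 h4
    rw [h1, h4]
    obtain ⟨h5, h6⟩ := par_w i hi j h2
    exact ⟨h3.1, h5, h6⟩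
  · intro k hk
    obtain ⟨i, hi, rfl⟩ := (hJt k).1 hk
    have h1 := hs i hi
    rw [hprt i hi, hreg i hi (s i - 1) (by omega)]
    exact par_top i hi
  · intro k hk
    obtain ⟨i, hi, rfl⟩ := (hJb k).1 hk
    have h1 := hs i hi
    rw [hprb i hi, hreg i hi 0 (by omega)]
    exact par_yb i hi
  · intro k hk c hc hpar
    obtain ⟨i, hi, j, hj, rfl, h1⟩ := hreg' k hk
    rw [h1] at hpar
    rcases Nat.eq_zero_or_pos j with h | h
    · subst h
      right
      exact ⟨off s i + 0, (hJb _).2 ⟨i, hi, rfl⟩, by rw [hprb i hi]; exact kid_w0 i hi c hc hpar⟩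
    · left
      obtain ⟨j, rfl⟩ : ∃ j', j = j' + 1 := ⟨j - 1, by omega⟩
      refine ⟨off s i + j, (hpos i hi j (by omega)).1, ?_⟩
      rw [hreg i hi j (by omega)]
      exact kid_w i hi j hj c hc hpar
  · intro k hk
    obtain ⟨i, hi, rfl⟩ := (hJt k).1 hk
    rw [hprt i hi]
    obtain ⟨h1, h2⟩ := par_yt i hi
    refine ⟨h1, ?_, ?_, h2⟩
    · intro k' hk' h
      obtain ⟨i', hi', j, hj, rfl, h3⟩ := hreg' k' hk'
      rw [h3] at h
      rcases Nat.eq_zero_or_pos j with h4 | h4
      · subst h4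
        exact yb_yt i' hi' i hi (kid_w0 i' hi' _ h1 h).symm
      · obtain ⟨j, rfl⟩ : ∃ j', j = j' + 1 := ⟨j - 1, by omega⟩
        exact w_yt i' hi' i hi j (by omega) (kid_w i' hi' j hj _ h1 h).symm
    · intro k' hk' h
      rcases hpr' k' hk' with ⟨i', hi', rfl, h3⟩ | ⟨i', hi', rfl, h3⟩ <;> rw [h3] at h
      · exact yt_yb i hi i' hi' h
      · have h4 := hs i' hi'
        exact w_yt i' hi' i hi (s i' - 1) (by omega) (kid_yt i' hi' _ h1 h).symm
  · intro j hj
    -- the tops below `j` belong to the first chains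
    obtain ⟨b, hb1, hb2, hb3⟩ : ∃ b ≤ p, off s b ≤ j ∧ (Jt.filter fun k => k < j).card ≤ b := by
      refine ⟨ci s p j, ci_le s p j, off_ci_le s p j, ?_⟩
      have h1 : (Jt.filter fun k => k < j) ⊆
          (range (ci s p j)).image (fun i => off s i + (s i - 1)) := by
        intro k hk
        rw [mem_filter, hJt] at hk
        obtain ⟨⟨i, hi, rfl⟩, h2⟩ := hk
        rw [mem_image]
        refine ⟨i, ?_, rfl⟩
        rw [mem_range]
        have h3 := off_succ s i
        have h4 := hs i hi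
        have h5 : i + 1 ≤ ci s p j :=
          Nat.le_findGreatest (P := fun i => off s i ≤ j) (by omega) (by omega)
        omega
      exact (card_le_card h1).trans (card_image_le.trans (by rw [card_range]))
    calc off s p * (Jt.filter fun k => k < j).card ≤ off s p * b := by gcongr
      _ ≤ p * off s b := avg_le s p b hb1 hmono
      _ ≤ p * j := by gcongr

end Pool.Agent.GracefulLeaf
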