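import Pool.Agent.GracefulLeaf.Core
import Pool.Agent.GracefulLeaf.Flatten
import Pool.Agent.GracefulAsym.FinalOfStep
import Pool.Agent.Graceful.Main

set_option autoImplicit false

/-! # Supertrees of trees with few leaves -/

namespace Pool.Agent.GracefulLeaf

open Finset Pool.Agent.GracefulAsym Pool.Agent.Graceful

theorem exists_half {V : Type*} [Fintype V] [DecidableEq V] (T : SimpleGraph V) (hT : T.IsTree)
    (R : RT V) (hR : ∀ u v, T.Adj u v ↔ (u ≠ R.r ∧ R.par u = v) ∨ (v ≠ R.r ∧ R.par v = u))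
    (v0 : V) (hv0 : v0 ≠ R.r) :
    ∃ N ∈ supertreeSizes T, 2 * N + 4 ≤ 3 * Fintype.card V := by
  classical
  obtain ⟨A, hA⟩ : ∃ A : Finset V, A = univ.filter fun v => R.dep v % 2 = 0 := ⟨_, rfl⟩
  obtain ⟨B, hB⟩ : ∃ B : Finset V, B = univ.filter fun v => ¬ R.dep v % 2 = 0 := ⟨_, rfl⟩
  have hAm : ∀ v, v ∈ A ↔ R.dep v % 2 = 0 := by intro v; simp [hA]
  have hBm : ∀ v, v ∈ B ↔ ¬ R.dep v % 2 = 0 := by intro v; simp [hB]
  have hcard : A.card + B.card = Fintype.card V := by
    rw [hA, hB, card_filter_add_card_filter_not, card_univ]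
  have hadj : ∀ u v, T.Adj u v → R.dep u % 2 ≠ R.dep v % 2 := by
    intro u v huv
    rcases (hR u v).1 huv with ⟨h1, rfl⟩ | ⟨h1, rfl⟩
    · have := R.dep_par u h1
      omega
    · have := R.dep_par v h1
      omega
  have hrA : R.r ∈ A := by rw [hAm, R.dep_r]
  have hex : ∀ k v, R.dep v = k + 1 → ∃ u, R.dep u = 1 := by
    intro k
    induction k with
    | zero => intro v hv; exact ⟨v, hv⟩
    | succ k ih =>
      intro v hv
      have h1 : v ≠ R.r := by rintro rfl; rw [R.dep_r] at hv; omega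
      exact ih (R.par v) (by have := R.dep_par v h1; omega)
  have h0 := R.dep_par v0 hv0
  obtain ⟨u, hu⟩ := hex _ v0 h0
  have huB : u ∈ B := by rw [hBm, hu]; omega
  obtain ⟨n1, hn1, hn1'⟩ := exists_supertree T hT A B (by intro v; rw [hAm, hBm]; tauto)
    (by intro u v h; rw [hBm, hBm]; have := hadj u v h; omega) R.r hrA ⟨u, huB⟩
  obtain ⟨n2, hn2, hn2'⟩ := exists_supertree T hT B A (by intro v; rw [hAm, hBm])
    (by intro u v h; rw [hAm, hAm]; have := hadj u v h; omega) u huB ⟨R.r, hrA⟩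
  rcases le_total A.card B.card with h | h
  · exact ⟨n2, hn2, by omega⟩
  · exact ⟨n1, hn1, by omega⟩

/-- the number of leaves -/
theorem leaves_le {V : Type*} [Fintype V] [DecidableEq V] (T : SimpleGraph V)
    (R : RT V) (hR : ∀ u v, T.Adj u v ↔ (u ≠ R.r ∧ R.par u = v) ∨ (v ≠ R.r ∧ R.par v = u))
    (v0 : V) (hv0 : v0 ≠ R.r) :
    (univ.filter fun v => R.ch v = 0).card ≤ {v : V | (T.neighborSet v).ncard = 1}.ncard ∧
      1 ≤ (univ.filter fun v => R.ch v = 0).card := by
  classical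
  have hex : ∀ k v, R.dep v = k + 1 → ∃ u, u ≠ R.r ∧ R.par u = R.r := by
    intro k
    induction k with
    | zero =>
      intro v hv
      have h1 : v ≠ R.r := by rintro rfl; rw [R.dep_r] at hv; omega
      refine ⟨v, h1, ?_⟩
      by_contra h2
      have h3 := R.dep_par v h1
      have h4 := R.dep_par _ h2
      omega
    | succ k ih =>
      intro v hv
      have h1 : v ≠ R.r := by rintro rfl; rw [R.dep_r] at hv; omega
      exact ih (R.par v) (by have := R.dep_par v h1; omega)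
  obtain ⟨u, hu1, hu2⟩ := hex _ v0 (R.dep_par v0 hv0)
  constructor
  · rw [Set.ncard_eq_toFinset_card']
    apply card_le_card
    intro v hv
    rw [mem_filter] at hv
    rw [Set.mem_toFinset, Set.mem_ofPred_eq]
    have hv2 : ∀ c, c ≠ R.r → R.par c ≠ v := by
      intro c hc hcv
      have h3 := hv.2
      unfold RT.ch at h3
      rw [card_eq_zero, filter_eq_empty_iff] at h3
      exact h3 (mem_univ c) ⟨hc, hcv⟩
    have hvr : v ≠ R.r := by
      rintro rfl
      exact hv2 u hu1 hu2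
    rw [Set.ncard_eq_one]
    refine ⟨R.par v, ?_⟩
    ext w
    rw [SimpleGraph.mem_neighborSet, Set.mem_singleton_iff, hR]
    constructor
    · rintro (⟨h1, h2⟩ | ⟨h1, h2⟩)
      · exact h2.symm
      · exact absurd h2 (hv2 w h1)
    · rintro rfl
      exact Or.inl ⟨hvr, rfl⟩
  · obtain ⟨w, -, hw⟩ := exists_max_image (univ : Finset V) R.dep ⟨v0, mem_univ _⟩
    rw [Nat.succ_le_iff, card_pos]
    refine ⟨w, ?_⟩
    rw [mem_filter]
    refine ⟨mem_univ _, ?_⟩
    unfold RT.ch
    rw [card_eq_zero, filter_eq_empty_iff]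
    rintro c - ⟨hc1, hc2⟩
    have h1 := R.dep_par c hc1
    have h2 := hw c (mem_univ _)
    rw [hc2] at h1
    omega

theorem leaf_bound {V : Type*} [Finite V] (T : SimpleGraph V) (hT : T.IsTree) :
    ∃ N ∈ supertreeSizes T,
      N ≤ T.edgeSet.ncard + 125 * {v : V | (T.neighborSet v).ncard = 1}.ncard := by
  classical
  have := Fintype.ofFinite V
  obtain ⟨R, hR⟩ := exists_RT T hT
  have hm : T.edgeSet.ncard + 1 = Fintype.card V := by
    have := (SimpleGraph.isTree_iff_connected_and_card.1 hT).2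
    rw [Nat.card_eq_fintype_card (α := V)] at this
    exact this
  by_cases hV : ∃ v0, v0 ≠ R.r
  · obtain ⟨v0, hv0⟩ := hV
    obtain ⟨h1, h2⟩ := leaves_le T R hR v0 hv0
    obtain ⟨n, p, ⟨X⟩⟩ := exists_flat R
    set L := (univ.filter fun v => R.ch v = 0).card with hL
    rcases Nat.lt_or_ge n (240 * L) with h3 | h3
    · obtain ⟨N, hN, hN'⟩ := exists_half T hT R hR v0 hv0
      have := X.card_le
      exact ⟨N, hN, by omega⟩
    · obtain ⟨N, hN, hN'⟩ := core T hT R hR X h2 h3
      exact ⟨N, hN, by omega⟩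
  · push Not at hV
    refine ⟨0, ?_, Nat.zero_le _⟩
    refine complete T hT R hR (fun _ => 0) 0 ?_ (fun _ => le_rfl) ?_ (fun t ht => absurd ht (by omega))
    · intro u v _
      rw [hV u, hV v]
    · intro v w hv
      exact absurd (hV v) hv

end Pool.Agent.GracefulLeaf
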