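import Pool.Agent.GracefulLeaf.Defs

set_option autoImplicit false

namespace Pool.Agent.GracefulLeaf

open Finset Pool.Agent.GracefulAsym

/-- index value -> label of the `k`-th regular vertex: even `k` low, odd `k` high -/
def rl (N : ℕ) (F : ℕ → ℕ) (k : ℕ) : ℕ := if k % 2 = 0 then F k else N - F k

/-- `N` minus the difference of the joint edge at the `k`-th regular vertex -/
def msum (N : ℕ) (F r : ℕ → ℕ) (k : ℕ) : ℕ := if k % 2 = 0 then F k + (N - r k) else F k + r k

/-- recursion principle -/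
theorem exists_rec' {α : Type*} [Inhabited α] (Q : ℕ → (ℕ → α) → α → Prop)
    (hQ : ∀ k g, (∀ i < k, Q i g (g i)) → ∃ a, Q k g a)
    (hcongr : ∀ k g g' a, (∀ i < k, g i = g' i) → Q k g a → Q k g' a) :
    ∃ g, ∀ k, Q k g (g k) := by
  classical
  let step : (k : ℕ) → ((i : ℕ) → i < k → α) → α := fun k ih =>
    let g : ℕ → α := fun i => if h : i < k then ih i h else default
    if h : ∃ a, Q k g a then h.choose else default
  let g : ℕ → α := WellFounded.fix (C := fun _ => α) (measure id).wf step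
  have hg : ∀ k, g k = step k (fun i _ => g i) := by
    intro k
    exact WellFounded.fix_eq (C := fun _ => α) (measure id).wf step k
  refine ⟨g, ?_⟩
  intro k
  induction k using Nat.strong_induction_on with
  | _ k ih =>
    have h1 : ∃ a, Q k (fun i => if i < k then g i else default) a := by
      apply hQ
      intro i hi
      have h2 := hcongr i g (fun i => if i < k then g i else default) (g i) (by
        intro j hj
        simp [show j < k by omega]) (ih i hi)
      simpa [hi] using h2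
    have h2 : g k = h1.choose := by
      rw [hg k]
      simp only [step]
      have h3 : (fun i => if h : i < k then g i else default) =
          (fun i => if i < k then g i else (default : α)) := by
        funext i
        split_ifs <;> rfl
      have h4 : ∃ a, Q k (fun i => if _h : i < k then g i else default) a := h1
      rw [dif_pos h4]
    rw [h2]
    have h3 := h1.choose_spec
    exact hcongr k _ g _ (by intro i hi; simp [hi]) h3

/-- value of `msum` in terms of a pair -/
def msv (N : ℕ) (k : ℕ) (a : ℕ × ℕ) : ℕ := if k % 2 = 0 then a.1 + (N - a.2) else a.1 + a.2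

theorem exists_next (N c ρ h : ℕ) (J : Finset ℕ) (S : ℕ → Prop)
    (hN : N + 1 = c + ρ + h) (hS1 : ∀ x, S x → ¬ S (x + 1))
    (hρ : 2 * J.card < ρ) (k : ℕ) (g : ℕ → ℕ × ℕ) :
    ∃ a : ℕ × ℕ, (k < 2 → a.1 = 0) ∧
      (2 ≤ k → (g (k - 2)).1 < a.1 ∧ (k % 2 = 0 → ¬ S a.1) ∧
        (∀ i ∈ J, i < k → msv N i (g i) ≠ (g (k - 1)).1 + a.1) ∧
        (∀ x, (g (k - 2)).1 < x → x < a.1 → (k % 2 = 0 ∧ S x) ∨
          ∃ i ∈ J, i < k ∧ msv N i (g i) = (g (k - 1)).1 + x)) ∧
      (k ∈ J → c ≤ a.2 ∧ a.2 < c + ρ ∧ ∀ i ∈ J, i < k → (g i).2 ≠ a.2 ∧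
        msv N i (g i) ≠ msv N k a) := by
  classical
  -- the value of `F`
  obtain ⟨x, hx1, hx2⟩ : ∃ x : ℕ, (k < 2 → x = 0) ∧
      (2 ≤ k → (g (k - 2)).1 < x ∧ (k % 2 = 0 → ¬ S x) ∧
        (∀ i ∈ J, i < k → msv N i (g i) ≠ (g (k - 1)).1 + x) ∧
        (∀ y, (g (k - 2)).1 < y → y < x → (k % 2 = 0 ∧ S y) ∨
          ∃ i ∈ J, i < k ∧ msv N i (g i) = (g (k - 1)).1 + y)) := by
    rcases Nat.lt_or_ge k 2 with hk | hk
    · exact ⟨0, fun _ => rfl, fun h => absurd h (by omega)⟩
    · have hex : ∃ x, (g (k - 2)).1 < x ∧ (k % 2 = 0 → ¬ S x) ∧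
          (∀ i ∈ J, i < k → msv N i (g i) ≠ (g (k - 1)).1 + x) := by
        have hX : ∀ X, (g (k - 2)).1 < X → (∀ i ∈ J, msv N i (g i) < X) → (¬ S X) →
            ∃ x, (g (k - 2)).1 < x ∧ (k % 2 = 0 → ¬ S x) ∧
              (∀ i ∈ J, i < k → msv N i (g i) ≠ (g (k - 1)).1 + x) := by
          intro X h1 h2 h3
          refine ⟨X, h1, fun _ => h3, ?_⟩
          intro i hi _
          have := h2 i hi
          omega
        have hsup : ∀ i ∈ J, msv N i (g i) ≤ J.sup (fun i => msv N i (g i)) := by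
          intro i hi
          exact Finset.le_sup (f := fun i => msv N i (g i)) hi
        by_cases hS : S (J.sup (fun i => msv N i (g i)) + (g (k - 2)).1 + 1)
        · apply hX (J.sup (fun i => msv N i (g i)) + (g (k - 2)).1 + 1 + 1) (by omega) _ (hS1 _ hS)
          intro i hi
          have := hsup i hi
          omega
        · apply hX (J.sup (fun i => msv N i (g i)) + (g (k - 2)).1 + 1) (by omega) _ hS
          intro i hi
          have := hsup i hi
          omega
      obtain ⟨h1, h2, h3⟩ := Nat.find_spec hex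
      refine ⟨Nat.find hex, fun h => absurd h (by omega), fun _ => ⟨h1, h2, h3, ?_⟩⟩
      intro y hy1 hy2
      have h4 := Nat.find_min hex hy2
      by_contra hcon
      push Not at hcon
      apply h4
      refine ⟨hy1, hcon.1, ?_⟩
      intro i hi hik
      exact hcon.2 i hi hik
  by_cases hkJ : k ∈ J
  · -- the value of `r`
    let bad : ℕ → ℕ := fun i => if k % 2 = 0 then x + N - msv N i (g i) else msv N i (g i) - x
    have hcard : (J.image (fun i => (g i).2) ∪ J.image bad).card < (Ico c (c + ρ)).card := by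
      have h1 := card_union_le (J.image (fun i => (g i).2)) (J.image bad)
      have h2 := card_image_le (s := J) (f := fun i => (g i).2)
      have h3 := card_image_le (s := J) (f := bad)
      rw [Nat.card_Ico]
      omega
    obtain ⟨y, hy1, hy2⟩ := exists_mem_notMem_of_card_lt_card hcard
    rw [mem_Ico] at hy1
    rw [mem_union, mem_image, mem_image] at hy2
    push Not at hy2
    refine ⟨(x, y), hx1, hx2, fun _ => ⟨hy1.1, hy1.2, ?_⟩⟩
    intro i hi hik
    refine ⟨hy2.1 i hi, ?_⟩
    intro h4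
    apply hy2.2 i hi
    simp only [bad]
    rw [h4]
    unfold msv
    split_ifs with h5
    · simp only; omega
    · simp only; omega
  · exact ⟨(x, 0), hx1, hx2, fun h => absurd h hkJ⟩

theorem exists_seq (N c ρ h : ℕ) (J : Finset ℕ) (S : ℕ → Prop)
    (hN : N + 1 = c + ρ + h) (hS1 : ∀ x, S x → ¬ S (x + 1))
    (hρ : 2 * J.card < ρ) :
    ∃ F r : ℕ → ℕ, F 0 = 0 ∧ F 1 = 0 ∧ (∀ k, F k < F (k + 2)) ∧
      (∀ k, k % 2 = 0 → ¬ S (F (k + 2))) ∧
      (∀ k, ∀ i ∈ J, i < k + 2 → msum N F r i ≠ F (k + 1) + F (k + 2)) ∧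
      (∀ k x, F k < x → x < F (k + 2) → (k % 2 = 0 ∧ S x) ∨
        ∃ i ∈ J, msum N F r i = F (k + 1) + x) ∧
      (∀ k ∈ J, c ≤ r k ∧ r k < c + ρ) ∧
      (∀ k ∈ J, ∀ k' ∈ J, r k = r k' → k = k') ∧
      (∀ k ∈ J, ∀ k' ∈ J, msum N F r k = msum N F r k' → k = k') := by
  obtain ⟨g, hg⟩ := exists_rec' (α := ℕ × ℕ) (fun k g a => (k < 2 → a.1 = 0) ∧
      (2 ≤ k → (g (k - 2)).1 < a.1 ∧ (k % 2 = 0 → ¬ S a.1) ∧
        (∀ i ∈ J, i < k → msv N i (g i) ≠ (g (k - 1)).1 + a.1) ∧
        (∀ x, (g (k - 2)).1 < x → x < a.1 → (k % 2 = 0 ∧ S x) ∨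
          ∃ i ∈ J, i < k ∧ msv N i (g i) = (g (k - 1)).1 + x)) ∧
      (k ∈ J → c ≤ a.2 ∧ a.2 < c + ρ ∧ ∀ i ∈ J, i < k → (g i).2 ≠ a.2 ∧
        msv N i (g i) ≠ msv N k a))
    (fun k g _ => exists_next N c ρ h J S hN hS1 hρ k g)
    (by
      rintro k g g' a hgg ⟨h1, h2, h3⟩
      refine ⟨h1, ?_, ?_⟩
      · intro hk
        obtain ⟨h4, h5, h6, h7⟩ := h2 hk
        rw [hgg (k - 2) (by omega)] at h4 h7
        rw [hgg (k - 1) (by omega)] at h6 h7
        refine ⟨h4, h5, ?_, ?_⟩
        · intro i hi hik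
          rw [← hgg i hik]
          exact h6 i hi hik
        · intro x hx1 hx2
          rcases h7 x hx1 hx2 with h8 | ⟨i, hi, hik, h8⟩
          · exact Or.inl h8
          · refine Or.inr ⟨i, hi, hik, ?_⟩
            rw [← hgg i hik]
            exact h8
      · intro hk
        obtain ⟨h4, h5, h6⟩ := h3 hk
        refine ⟨h4, h5, ?_⟩
        intro i hi hik
        rw [← hgg i hik]
        exact h6 i hi hik)
  have hms : ∀ i, msum N (fun i => (g i).1) (fun i => (g i).2) i = msv N i (g i) := by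
    intro i; rfl
  refine ⟨fun i => (g i).1, fun i => (g i).2, (hg 0).1 (by omega), (hg 1).1 (by omega), ?_, ?_, ?_,
    ?_, ?_, ?_, ?_⟩
  · intro k
    exact ((hg (k + 2)).2.1 (by omega)).1
  · intro k hk
    exact ((hg (k + 2)).2.1 (by omega)).2.1 (by omega)
  · intro k i hi hik
    exact ((hg (k + 2)).2.1 (by omega)).2.2.1 i hi hik
  · intro k x hx1 hx2
    rcases ((hg (k + 2)).2.1 (by omega)).2.2.2 x hx1 hx2 with h8 | ⟨i, hi, hik, h8⟩
    · exact Or.inl ⟨by omega, h8.2⟩
    · exact Or.inr ⟨i, hi, h8⟩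
  · intro k hk
    have := (hg k).2.2 hk
    exact ⟨this.1, this.2.1⟩
  · intro k hk k' hk' h1
    rcases lt_trichotomy k k' with h2 | h2 | h2
    · exact absurd h1 (((hg k').2.2 hk').2.2 k hk h2).1
    · exact h2
    · exact absurd h1.symm (((hg k).2.2 hk).2.2 k' hk' h2).1
  · intro k hk k' hk' h1
    rw [hms, hms] at h1
    rcases lt_trichotomy k k' with h2 | h2 | h2
    · exact absurd h1 (((hg k').2.2 hk').2.2 k hk h2).2
    · exact h2
    · exact absurd h1.symm (((hg k).2.2 hk).2.2 k' hk' h2).2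

/-- skipped values -/
theorem skip (F m : ℕ → ℕ) (J : Finset ℕ) (S : ℕ → Prop) [DecidablePred S]
    (hskip : ∀ k x, F k < x → x < F (k + 2) → (k % 2 = 0 ∧ S x) ∨ ∃ i ∈ J, m i = F (k + 1) + x)
    (k t : ℕ) (h1 : F k + F (k + 1) ≤ t) (h2 : t < F (k + 1) + F (k + 2)) :
    t + (J.filter fun i => m i ≤ F k + F (k + 1)).card ≤ F k + F (k + 1) +
      (if k % 2 = 0 then ((Ioc (F k) (t - F (k + 1))).filter S).card else 0) +
      (J.filter fun i => m i ≤ t).card := by
  classical
  have h3 : (J.filter fun i => m i ≤ t).card = (J.filter fun i => m i ≤ F k + F (k + 1)).card +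
      (J.filter fun i => F k + F (k + 1) < m i ∧ m i ≤ t).card := by
    rw [← card_union_of_disjoint]
    · congr 1
      ext i
      simp only [mem_filter, mem_union]
      constructor
      · rintro ⟨h4, h5⟩
        rcases Nat.lt_or_ge (F k + F (k + 1)) (m i) with h6 | h6
        · exact Or.inr ⟨h4, h6, h5⟩
        · exact Or.inl ⟨h4, h6⟩
      · rintro (⟨h4, h5⟩ | ⟨h4, h5, h6⟩)
        · exact ⟨h4, by omega⟩
        · exact ⟨h4, h6⟩
    · rw [Finset.disjoint_left]
      intro i hi hi'
      rw [mem_filter] at hi hi'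
      omega
  have h4 : (Ioc (F k) (t - F (k + 1))) ⊆
      (if k % 2 = 0 then ((Ioc (F k) (t - F (k + 1))).filter S) else ∅) ∪
      (J.filter fun i => F k + F (k + 1) < m i ∧ m i ≤ t).image (fun i => m i - F (k + 1)) := by
    intro x hx
    rw [mem_Ioc] at hx
    rw [mem_union, mem_image]
    rcases hskip k x hx.1 (by omega) with ⟨h5, h6⟩ | ⟨i, hi, h5⟩
    · left
      rw [if_pos h5, mem_filter, mem_Ioc]
      exact ⟨hx, h6⟩
    · right
      refine ⟨i, ?_, by omega⟩
      rw [mem_filter]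
      refine ⟨hi, by omega, by omega⟩
  have h5 := (card_le_card h4).trans (card_union_le _ _)
  have h6 := card_image_le (s := J.filter fun i => F k + F (k + 1) < m i ∧ m i ≤ t)
    (f := fun i => m i - F (k + 1))
  rw [Nat.card_Ioc] at h5
  have h7 : (if k % 2 = 0 then ((Ioc (F k) (t - F (k + 1))).filter S) else ∅).card =
      (if k % 2 = 0 then ((Ioc (F k) (t - F (k + 1))).filter S).card else 0) := by
    split_ifs <;> simp
  rw [h7] at h5
  omega

theorem filter_range_add (S : ℕ → Prop) [DecidablePred S] (a b : ℕ) (hab : a ≤ b) (ha : ¬ S a) :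
    ((range a).filter S).card + ((Ioc a b).filter S).card = ((range (b + 1)).filter S).card := by
  rw [← card_union_of_disjoint]
  · congr 1
    ext x
    simp only [mem_union, mem_filter, mem_range, mem_Ioc]
    constructor
    · rintro (⟨h1, h2⟩ | ⟨h1, h2⟩)
      · exact ⟨by omega, h2⟩
      · exact ⟨by omega, h2⟩
    · rintro ⟨h1, h2⟩
      rcases lt_trichotomy x a with h3 | h3 | h3
      · exact Or.inl ⟨h3, h2⟩
      · subst h3; exact absurd h2 ha
      · exact Or.inr ⟨⟨h3, by omega⟩, h2⟩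
  · rw [Finset.disjoint_left]
    intro x hx hx'
    rw [mem_filter, mem_range] at hx
    rw [mem_filter, mem_Ioc] at hx'
    omega

/-- the invariants -/
theorem invariants (F m : ℕ → ℕ) (J : Finset ℕ) (S : ℕ → Prop) [DecidablePred S]
    (h0 : F 0 = 0) (h1 : F 1 = 0) (hF : ∀ k, F k < F (k + 2))
    (hS : ∀ k, k % 2 = 0 → ¬ S (F k))
    (hskip : ∀ k x, F k < x → x < F (k + 2) → (k % 2 = 0 ∧ S x) ∨ ∃ i ∈ J, m i = F (k + 1) + x)
    (k : ℕ) :
    (k % 2 = 0 →
      F k + F (k + 1) + 1 ≤ k + 1 + ((range (F k)).filter S).card +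
        (J.filter fun i => m i ≤ F k + F (k + 1)).card ∧
      F k + 1 ≤ k / 2 + 1 + ((range (F k)).filter S).card +
        (J.filter fun i => m i ≤ F k + F (k + 1)).card ∧
      F (k + 1) + 1 ≤ (k + 2) / 2 + (J.filter fun i => m i ≤ F k + F (k + 1)).card) ∧
    (k % 2 = 1 →
      F k + F (k + 1) + 1 ≤ k + 1 + ((range (F (k + 1))).filter S).card +
        (J.filter fun i => m i ≤ F k + F (k + 1)).card ∧
      F (k + 1) + 1 ≤ (k + 1) / 2 + 1 + ((range (F (k + 1))).filter S).card +
        (J.filter fun i => m i ≤ F k + F (k + 1)).card ∧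
      F k + 1 ≤ (k + 1) / 2 + (J.filter fun i => m i ≤ F k + F (k + 1)).card) := by
  induction k with
  | zero =>
    refine ⟨fun _ => ?_, fun h => absurd h (by omega)⟩
    rw [h0, h1]
    refine ⟨by omega, by omega, by omega⟩
  | succ k ih =>
    have h2 := hF k
    have h3 := skip F m J S hskip k (F (k + 1) + F (k + 2) - 1) (by omega) (by omega)
    have h4 : (J.filter fun i => m i ≤ F (k + 1) + F (k + 2) - 1).card ≤
        (J.filter fun i => m i ≤ F (k + 1) + F (k + 2)).card := by
      apply card_le_card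
      intro i hi
      rw [mem_filter] at hi ⊢
      exact ⟨hi.1, by omega⟩
    have h9 : (J.filter fun i => m i ≤ F k + F (k + 1)).card ≤
        (J.filter fun i => m i ≤ F (k + 1) + F (k + 2)).card := by
      apply card_le_card
      intro i hi
      rw [mem_filter] at hi ⊢
      exact ⟨hi.1, by omega⟩
    have h5 : k + 1 + 1 = k + 2 := rfl
    rw [h5]
    have h6 : F (k + 1) + F (k + 2) - 1 - F (k + 1) = F (k + 2) - 1 := by omega
    rw [h6] at h3
    rcases Nat.even_or_odd' k with ⟨c, hc | hc⟩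
    · have hk : k % 2 = 0 := by omega
      obtain ⟨i1, i2, i3⟩ := ih.1 hk
      have h7 := filter_range_add S (F k) (F (k + 2) - 1) (by omega) (hS k hk)
      have h8 : F (k + 2) - 1 + 1 = F (k + 2) := by omega
      rw [h8] at h7
      rw [if_pos hk] at h3
      refine ⟨fun h => absurd h (by omega), fun _ => ⟨by omega, by omega, by omega⟩⟩
    · have hk : k % 2 = 1 := by omega
      obtain ⟨i1, i2, i3⟩ := ih.2 hk
      rw [if_neg (by omega)] at h3
      refine ⟨fun _ => ⟨by omega, by omega, by omega⟩, fun h => absurd h (by omega)⟩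

/-- (L1) the regular labels, chosen one after the other -/
theorem process (n N c ρ h : ℕ) (J : Finset ℕ) (S : ℕ → Prop) [DecidablePred S]
    (hn : 2 ≤ n) (hJ : ∀ k ∈ J, k < n) (hN : N + 1 = c + ρ + h) (hch : h ≤ c)
    (hS0 : ¬ S 0) (hS1 : ∀ x, S x → ¬ S (x + 1))
    (hc : (n + 1) / 2 + ((range c).filter S).card + J.card ≤ c)
    (hh : n / 2 + J.card ≤ h) (hρ : 2 * J.card < ρ) :
    ∃ F r : ℕ → ℕ, F 0 = 0 ∧ F 1 = 0 ∧
      (∀ k, k + 2 < n → F k < F (k + 2)) ∧
      (∀ k < n, k % 2 = 0 → F k < c ∧ ¬ S (F k)) ∧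
      (∀ k < n, k % 2 = 1 → F k < h) ∧
      (∀ k ∈ J, c ≤ r k ∧ r k < c + ρ) ∧
      (∀ k ∈ J, ∀ k' ∈ J, r k = r k' → k = k') ∧
      (∀ k ∈ J, ∀ k' ∈ J, msum N F r k = msum N F r k' → k = k') ∧
      (∀ k ∈ J, ∀ j, j + 1 < n → msum N F r k ≠ F j + F (j + 1)) ∧
      (∀ j, 1 ≤ j → j + 1 < n → ∀ t, F (j - 1) + F j ≤ t → t < F j + F (j + 1) →
        t + 1 ≤ j + ((range (if j % 2 = 1 then t - F j + 1 else F j)).filter S).card +
          (J.filter fun k => msum N F r k ≤ t).card) ∧
      (∀ j, 4 * j + 4 ≤ h → 2 * j + 1 < n → F (2 * j + 1) = j) := by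
  classical
  obtain ⟨F, r, h0, h1, hF, hS, hm, hskip, hr, hrinj, hminj⟩ := exists_seq N c ρ h J S hN hS1 hρ
  have hS' : ∀ k, k % 2 = 0 → ¬ S (F k) := by
    intro k hk
    rcases k with _ | _ | k
    · rw [h0]; exact hS0
    · omega
    · exact hS k (by omega)
  have hinv := invariants F (msum N F r) J S h0 h1 hF hS' hskip
  have hJle : ∀ t, (J.filter fun i => msum N F r i ≤ t).card ≤ J.card := fun t => card_filter_le _ _
  -- bounds
  have hlow : ∀ k < n, k % 2 = 0 → F k < c := by
    intro k hk hk2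
    by_contra hcon
    push Not at hcon
    obtain ⟨_, i2, _⟩ := (hinv k).1 hk2
    have h2 := hJle (F k + F (k + 1))
    have h3 : ((range (F k)).filter S).card ≤ ((range c).filter S).card + (F k - c) := by
      have h4 : (range (F k)).filter S ⊆ (range c).filter S ∪ Ico c (F k) := by
        intro x hx
        rw [mem_filter, mem_range] at hx
        rw [mem_union, mem_filter, mem_range, mem_Ico]
        rcases Nat.lt_or_ge x c with h5 | h5
        · exact Or.inl ⟨h5, hx.2⟩
        · exact Or.inr ⟨h5, hx.1⟩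
      have h5 := (card_le_card h4).trans (card_union_le _ _)
      rwa [Nat.card_Ico] at h5
    omega
  have hhigh : ∀ k < n, k % 2 = 1 → F k < h := by
    intro k hk hk2
    obtain ⟨_, _, i3⟩ := (hinv k).2 hk2
    have h2 := hJle (F k + F (k + 1))
    omega
  -- monotonicity of sums
  have hmono : StrictMono fun k => F k + F (k + 1) := by
    apply strictMono_nat_of_lt_succ
    intro k
    have := hF k
    show F k + F (k + 1) < F (k + 1) + F (k + 2)
    omega
  have hmh : ∀ k ∈ J, h ≤ msum N F r k := by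
    intro k hk
    obtain ⟨h2, h3⟩ := hr k hk
    unfold msum
    split_ifs <;> omega
  refine ⟨F, r, h0, h1, fun k _ => hF k, fun k hk hk2 => ⟨hlow k hk hk2, hS' k hk2⟩, hhigh, hr,
    hrinj, hminj, ?_, ?_, ?_⟩
  · intro k hk j hj
    rcases Nat.lt_or_ge k (j + 1) with h2 | h2
    · rcases j with _ | j
      · rw [h0, h1]
        have := hmh k hk
        omega
      · exact hm j k hk (by omega)
    · have hkn := hJ k hk
      have h3 : F j + F (j + 1) ≤ F (k - 1) + F (k - 1 + 1) := hmono.monotone (by omega)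
      have h4 : k - 1 + 1 = k := by omega
      rw [h4] at h3
      obtain ⟨h5, h6⟩ := hr k hk
      intro h7
      unfold msum at h7
      split_ifs at h7 with h8
      · have := hhigh (k - 1) (by omega) (by omega)
        omega
      · have := hlow (k - 1) (by omega) (by omega)
        omega
  · intro j hj1 hjn t ht1 ht2
    obtain ⟨k, rfl⟩ : ∃ k, j = k + 1 := ⟨j - 1, by omega⟩
    rw [Nat.add_sub_cancel] at ht1
    have h3 := skip F (msum N F r) J S hskip k t ht1 ht2
    rcases Nat.even_or_odd' k with ⟨c, hc | hc⟩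
    · have hk : k % 2 = 0 := by omega
      obtain ⟨i1, _, _⟩ := (hinv k).1 hk
      rw [if_pos hk] at h3
      rw [if_pos (by omega)]
      have h7 := filter_range_add S (F k) (t - F (k + 1)) (by omega) (hS' k hk)
      omega
    · have hk : k % 2 = 1 := by omega
      obtain ⟨i1, _, _⟩ := (hinv k).2 hk
      rw [if_neg (by omega)] at h3
      rw [if_neg (by omega)]
      omega
  · intro j
    have hind : ∀ j, 4 * j + 4 ≤ h → F (2 * j + 1) = j ∧ F (2 * j) ≤ 2 * j := by
      intro j
      induction j with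
      | zero => intro _; exact ⟨h1, by rw [Nat.mul_zero, h0]⟩
      | succ j ih =>
        intro hj
        obtain ⟨i1, i2⟩ := ih (by omega)
        have h2 : F (2 * j + 2) ≤ 2 * j + 2 := by
          by_contra hcon
          push Not at hcon
          have h3 : ∀ x, F (2 * j) < x → x ≤ 2 * j + 2 → S x := by
            intro x hx1 hx2
            rcases hskip (2 * j) x hx1 (by omega) with h4 | ⟨i, hi, h4⟩
            · exact h4.2
            · have := hmh i hi
              omega
          exact hS1 (2 * j + 1) (h3 _ (by omega) (by omega)) (h3 _ (by omega) (by omega))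
        have h3 : F (2 * (j + 1) + 1) = j + 1 := by
          have h4 := hF (2 * j + 1)
          have h5 : 2 * (j + 1) + 1 = 2 * j + 1 + 2 := by ring
          rw [h5]
          by_contra hcon
          rcases hskip (2 * j + 1) (j + 1) (by omega) (by omega) with h6 | ⟨i, hi, h6⟩
          · omega
          · have := hmh i hi
            rw [show 2 * j + 1 + 1 = 2 * j + 2 by ring] at h6
            omega
        exact ⟨h3, by rw [show 2 * (j + 1) = 2 * j + 2 by ring]; exact h2⟩
    intro h2 _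
    exact (hind j h2).1

end Pool.Agent.GracefulLeaf
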