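import Pool.Agent.GracefulLeaf.FlatDefs
import Pool.Agent.GracefulLeaf.Process
import Pool.Agent.GracefulAsym.Greedy

set_option autoImplicit false

/-! # The labelling of the whole tree -/

namespace Pool.Agent.GracefulLeaf

open Finset Pool.Agent.GracefulAsym

/-- the output of `process` (without the counting part) -/
structure Proc (n N c ρ h : ℕ) (J : Finset ℕ) (F r : ℕ → ℕ) : Prop where
  hN : N + 1 = c + ρ + h
  hF : ∀ k, k + 2 < n → F k < F (k + 2)
  low : ∀ k < n, k % 2 = 0 → F k < c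
  high : ∀ k < n, k % 2 = 1 → F k < h
  hr : ∀ k ∈ J, c ≤ r k ∧ r k < c + ρ
  rinj : ∀ k ∈ J, ∀ k' ∈ J, r k = r k' → k = k'
  minj : ∀ k ∈ J, ∀ k' ∈ J, msum N F r k = msum N F r k' → k = k'
  mpair : ∀ k ∈ J, ∀ j, j + 1 < n → msum N F r k ≠ F j + F (j + 1)

namespace Proc

variable {n N c ρ h : ℕ} {J : Finset ℕ} {F r : ℕ → ℕ} (P : Proc n N c ρ h J F r)

include P

theorem F_lt {k k' : ℕ} (hk : k < k') (hp : k % 2 = k' % 2) (hn : k' < n) : F k < F k' := by
  obtain ⟨d, rfl⟩ : ∃ d, k' = k + 2 * (d + 1) := ⟨(k' - k) / 2 - 1, by omega⟩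
  clear hk hp
  induction d with
  | zero => exact P.hF k (by omega)
  | succ d ih =>
    have h1 := ih (by omega)
    have h2 := P.hF (k + 2 * (d + 1)) (by omega)
    have h3 : k + 2 * (d + 1 + 1) = k + 2 * (d + 1) + 2 := by ring
    rw [h3]
    omega

theorem sum_lt {k k' : ℕ} (hk : k < k') (hn : k' + 1 < n) : F k + F (k + 1) < F k' + F (k' + 1) := by
  induction k' with
  | zero => omega
  | succ k' ih =>
    have h1 := P.hF k' (by omega)
    rcases Nat.lt_or_ge k k' with h2 | h2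
    · have := ih h2 (by omega)
      have h3 : k' + 1 + 1 = k' + 2 := rfl
      rw [h3]
      omega
    · have h4 : k = k' := by omega
      subst h4
      have h3 : k + 1 + 1 = k + 2 := rfl
      rw [h3]
      omega

theorem rl_low {k : ℕ} (hk : k < n) (hp : k % 2 = 0) : rl N F k = F k ∧ rl N F k < c := by
  unfold rl
  rw [if_pos hp]
  exact ⟨rfl, P.low k hk hp⟩

theorem rl_high {k : ℕ} (hk : k < n) (hp : k % 2 = 1) :
    rl N F k + F k = N ∧ c + ρ ≤ rl N F k := by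
  unfold rl
  rw [if_neg (by omega)]
  have := P.high k hk hp
  have := P.hN
  omega

theorem rl_inj {k k' : ℕ} (hk : k < n) (hk' : k' < n) (he : rl N F k = rl N F k') : k = k' := by
  rcases Nat.mod_two_eq_zero_or_one k with h1 | h1 <;>
    rcases Nat.mod_two_eq_zero_or_one k' with h2 | h2
  · obtain ⟨h3, h4⟩ := P.rl_low hk h1
    obtain ⟨h5, h6⟩ := P.rl_low hk' h2
    rcases lt_trichotomy k k' with h7 | h7 | h7
    · have := P.F_lt h7 (by omega) hk'; omega
    · exact h7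
    · have := P.F_lt h7 (by omega) hk; omega
  · obtain ⟨h3, h4⟩ := P.rl_low hk h1
    obtain ⟨h5, h6⟩ := P.rl_high hk' h2
    omega
  · obtain ⟨h3, h4⟩ := P.rl_high hk h1
    obtain ⟨h5, h6⟩ := P.rl_low hk' h2
    omega
  · obtain ⟨h3, h4⟩ := P.rl_high hk h1
    obtain ⟨h5, h6⟩ := P.rl_high hk' h2
    rcases lt_trichotomy k k' with h7 | h7 | h7
    · have := P.F_lt h7 (by omega) hk'; omega
    · exact h7
    · have := P.F_lt h7 (by omega) hk; omega

theorem ad_reg {k : ℕ} (hk : k + 1 < n) :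
    ad (rl N F k) (rl N F (k + 1)) + (F k + F (k + 1)) = N ∧ ρ < ad (rl N F k) (rl N F (k + 1)) := by
  have hN := P.hN
  rcases Nat.mod_two_eq_zero_or_one k with h1 | h1
  · obtain ⟨h3, h4⟩ := P.rl_low (show k < n by omega) h1
    obtain ⟨h5, h6⟩ := P.rl_high hk (by omega)
    have := P.high (k + 1) hk (by omega)
    unfold ad
    omega
  · obtain ⟨h3, h4⟩ := P.rl_high (show k < n by omega) h1
    obtain ⟨h5, h6⟩ := P.rl_low hk (by omega)
    have := P.high k (by omega) (by omega)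
    unfold ad
    omega

theorem ad_joint {k : ℕ} (hk : k ∈ J) (hkn : k < n) :
    ad (rl N F k) (r k) + msum N F r k = N := by
  have hN := P.hN
  obtain ⟨h7, h8⟩ := P.hr k hk
  rcases Nat.mod_two_eq_zero_or_one k with h1 | h1
  · obtain ⟨h3, h4⟩ := P.rl_low hkn h1
    unfold ad msum
    rw [if_pos h1]
    omega
  · obtain ⟨h3, h4⟩ := P.rl_high hkn h1
    unfold ad msum
    rw [if_neg (by omega)]
    omega

end Proc

section

variable {V : Type*} [Fintype V] [DecidableEq V] {R : RT V} {n p L : ℕ} (X : Flat R n p L)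

theorem exists_f0 (a b : ℕ → ℕ) : ∃ f0 : V → ℕ, (∀ k < n, f0 (X.reg k) = a k) ∧
    (∀ k ∈ X.Jb ∪ X.Jt, f0 (X.pr k) = b k) := by
  classical
  refine ⟨fun v => if h : ∃ k, k < n ∧ X.reg k = v then a h.choose else
    if h : ∃ k, k ∈ X.Jb ∪ X.Jt ∧ X.pr k = v then b h.choose else 0, ?_, ?_⟩
  · intro k hk
    have h : ∃ k', k' < n ∧ X.reg k' = X.reg k := ⟨k, hk, rfl⟩
    simp only [dif_pos h]
    rw [X.reg_inj _ h.choose_spec.1 _ hk h.choose_spec.2]
  · intro k hk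
    have h1 : ¬ ∃ k', k' < n ∧ X.reg k' = X.pr k := by
      rintro ⟨k', hk', h⟩
      exact X.reg_pr k' hk' k hk h
    have h : ∃ k', k' ∈ X.Jb ∪ X.Jt ∧ X.pr k' = X.pr k := ⟨k, hk, rfl⟩
    simp only [dif_neg h1, dif_pos h]
    rw [X.pr_inj _ h.choose_spec.1 _ hk h.choose_spec.2]

/-- the regular vertices -/
def Flat.Rg : Finset V := (range n).image X.reg

/-- the private vertices -/
def Flat.Pv : Finset V := (X.Jb ∪ X.Jt).image X.pr

theorem Flat.mem_Rg {v : V} : v ∈ X.Rg ↔ ∃ k < n, X.reg k = v := by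
  simp [Flat.Rg]

theorem Flat.mem_Pv {v : V} : v ∈ X.Pv ↔ ∃ k ∈ X.Jb ∪ X.Jt, X.pr k = v := by
  rw [Flat.Pv, mem_image]

theorem Flat.card_Rg : X.Rg.card = n := by
  rw [Flat.Rg, card_image_of_injOn, card_range]
  intro k hk k' hk' h
  simp only [coe_range, Set.mem_Iio] at hk hk'
  exact X.reg_inj k hk k' hk' h

theorem Flat.card_J : (X.Jb ∪ X.Jt).card = 2 * p := by
  rw [card_union_of_disjoint X.disj, X.card_Jb, X.card_Jt]
  ring

theorem Flat.card_Pv : X.Pv.card = 2 * p := by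
  rw [Flat.Pv, card_image_of_injOn, X.card_J]
  intro k hk k' hk' h
  exact X.pr_inj k hk k' hk' h

theorem Flat.disj_RP : Disjoint X.Rg X.Pv := by
  rw [Finset.disjoint_left]
  intro v hv hv'
  rw [X.mem_Rg] at hv
  rw [X.mem_Pv] at hv'
  obtain ⟨k, hk, rfl⟩ := hv
  obtain ⟨k', hk', h⟩ := hv'
  exact X.reg_pr k hk k' hk' h.symm

/-- the other vertices -/
def Flat.Ir : Finset V := univ \ (X.Rg ∪ X.Pv)

theorem Flat.mem_Ir {v : V} : v ∈ X.Ir ↔ v ∉ X.Rg ∪ X.Pv := by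
  simp [Flat.Ir]

theorem Flat.card_Ir : n + 2 * p + X.Ir.card = Fintype.card V := by
  have h1 : (X.Rg ∪ X.Pv).card = n + 2 * p := by
    rw [card_union_of_disjoint X.disj_RP, X.card_Rg, X.card_Pv]
  have h2 := card_sdiff_add_card_eq_card (subset_univ (X.Rg ∪ X.Pv))
  rw [h1, card_univ] at h2
  rw [Flat.Ir]
  omega

theorem Flat.J_lt {k : ℕ} (hk : k ∈ X.Jb ∪ X.Jt) : k < n := by
  rw [mem_union] at hk
  rcases hk with h | h
  · exact X.Jb_lt k h
  · exact X.Jt_lt k h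

/-- the edges between regular and private vertices -/
theorem Flat.old_edge {e : V} (he : e ≠ R.r) (h1 : e ∈ X.Rg ∪ X.Pv) (h2 : R.par e ∈ X.Rg ∪ X.Pv) :
    (∃ k, k + 1 < n ∧ k ∉ X.Jt ∧ e = X.reg k ∧ R.par e = X.reg (k + 1)) ∨
    (∃ k ∈ X.Jt, e = X.reg k ∧ R.par e = X.pr k) ∨
    (∃ k ∈ X.Jb, e = X.pr k ∧ R.par e = X.reg k) := by
  rw [mem_union, X.mem_Rg, X.mem_Pv] at h1
  rcases h1 with ⟨k, hk, rfl⟩ | ⟨k, hk, rfl⟩
  · by_cases h : k ∈ X.Jt
    · exact Or.inr (Or.inl ⟨k, h, rfl, (X.par_top k h).2⟩)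
    · obtain ⟨h3, h4, h5⟩ := X.par_reg k hk h
      exact Or.inl ⟨k, h3, h, rfl, h5⟩
  · rw [mem_union] at hk
    rcases hk with h | h
    · exact Or.inr (Or.inr ⟨k, h, rfl, (X.par_bot k h).2⟩)
    · exfalso
      obtain ⟨h3, h4, h5, h6⟩ := X.par_prt k h
      rw [mem_union, X.mem_Rg, X.mem_Pv] at h2
      rcases h2 with ⟨k', hk', h7⟩ | ⟨k', hk', h7⟩
      · exact h4 k' hk' h7.symm
      · exact h5 k' hk' h7.symm

/-- the ends of a new edge are private or irregular -/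
theorem Flat.new_edge {e : V} (he : e ≠ R.r) (h : e ∈ X.Ir ∨ R.par e ∈ X.Ir) :
    e ∉ X.Rg ∧ R.par e ∉ X.Rg ∧ (e ∈ X.Rg ∪ X.Pv → ∃ k ∈ X.Jt, e = X.pr k) := by
  have h1 : e ∉ X.Rg := by
    intro he1
    rcases h with h | h
    · rw [X.mem_Ir] at h
      exact h (mem_union_left _ he1)
    · rw [X.mem_Rg] at he1
      obtain ⟨k, hk, rfl⟩ := he1
      rw [X.mem_Ir] at h
      apply h
      by_cases h2 : k ∈ X.Jt
      · rw [(X.par_top k h2).2]
        exact mem_union_right _ (X.mem_Pv.2 ⟨k, mem_union_right _ h2, rfl⟩)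
      · obtain ⟨h3, h4, h5⟩ := X.par_reg k hk h2
        rw [h5]
        exact mem_union_left _ (X.mem_Rg.2 ⟨k + 1, h3, rfl⟩)
  refine ⟨h1, ?_, ?_⟩
  · intro h2
    rcases h with h | h
    · obtain ⟨k, hk, h3⟩ := X.mem_Rg.1 h2
      rw [X.mem_Ir] at h
      apply h
      rcases X.kid_reg k hk e he h3.symm with ⟨k', hk', rfl⟩ | ⟨k', hk', rfl⟩
      · exact mem_union_left _ (X.mem_Rg.2 ⟨k', hk', rfl⟩)
      · exact mem_union_right _ (X.mem_Pv.2 ⟨k', mem_union_left _ hk', rfl⟩)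
    · rw [X.mem_Ir] at h
      exact h (mem_union_left _ h2)
  · intro h2
    rw [mem_union] at h2
    rcases h2 with h2 | h2
    · exact absurd h2 h1
    · obtain ⟨k, hk, rfl⟩ := X.mem_Pv.1 h2
      rw [mem_union] at hk
      rcases hk with hk | hk
      · exfalso
        have h3 := (X.par_bot k hk).2
        rcases h with h | h
        · rw [X.mem_Ir] at h
          exact h (mem_union_right _ h2)
        · rw [X.mem_Ir, h3] at h
          exact h (mem_union_left _ (X.mem_Rg.2 ⟨k, X.Jb_lt k hk, rfl⟩))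
      · exact ⟨k, hk, rfl⟩

theorem exists_labelling {N c ρ h : ℕ} {F r : ℕ → ℕ} (P : Proc n N c ρ h (X.Jb ∪ X.Jt) F r)
    (hρ : 4 * p + 50 * L + 5 ≤ ρ) :
    ∃ f : V → ℕ, Function.Injective f ∧ (∀ k < n, f (X.reg k) = rl N F k) ∧
      (∀ k ∈ X.Jb ∪ X.Jt, f (X.pr k) = r k) ∧ (∀ v, v ∉ X.Rg → c ≤ f v ∧ f v < c + ρ) ∧
      (∀ v w, v ≠ R.r → w ≠ R.r → ad (f v) (f (R.par v)) = ad (f w) (f (R.par w)) → v = w) := by
  classical
  obtain ⟨f0, hf01, hf02⟩ := exists_f0 X (rl N F) r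
  have hregC : ∀ k < n, rl N F k < c ∨ c + ρ ≤ rl N F k := by
    intro k hk
    rcases Nat.mod_two_eq_zero_or_one k with h1 | h1
    · exact Or.inl (P.rl_low hk h1).2
    · exact Or.inr (P.rl_high hk h1).2
  have hAB : Disjoint (X.Rg ∪ X.Pv) X.Ir := by
    rw [Finset.disjoint_left]
    intro v hv hv'
    exact (X.mem_Ir.1 hv') hv
  have hun : (X.Rg ∪ X.Pv) ∪ X.Ir = univ := by
    rw [Flat.Ir, union_sdiff_of_subset (subset_univ _)]
  have hf0inj : Set.InjOn f0 ((X.Rg ∪ X.Pv : Finset V) : Set V) := by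
    intro u hu v hv huv
    rw [mem_coe, mem_union, X.mem_Rg, X.mem_Pv] at hu hv
    rcases hu with ⟨k, hk, rfl⟩ | ⟨k, hk, rfl⟩ <;> rcases hv with ⟨k', hk', rfl⟩ | ⟨k', hk', rfl⟩
    · rw [hf01 k hk, hf01 k' hk'] at huv
      rw [P.rl_inj hk hk' huv]
    · rw [hf01 k hk, hf02 k' hk'] at huv
      have h1 := hregC k hk
      have h2 := P.hr k' hk'
      omega
    · rw [hf02 k hk, hf01 k' hk'] at huv
      have h1 := hregC k' hk'
      have h2 := P.hr k hk
      omega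
    · rw [hf02 k hk, hf02 k' hk'] at huv
      rw [P.rinj k hk k' hk' huv]
  have hnew : newEdges R (X.Rg ∪ X.Pv) X.Ir ⊆ X.Ir ∪ X.Jt.image X.pr := by
    intro e he
    unfold newEdges at he
    rw [mem_filter] at he
    obtain ⟨_, he1, he2⟩ := he
    have h1 : e ∈ X.Ir ∨ R.par e ∈ X.Ir := by
      rcases he2 with h | h
      · exact Or.inl h.1
      · exact Or.inr h.2
    rw [mem_union]
    by_cases h2 : e ∈ X.Ir
    · exact Or.inl h2
    · right
      have h3 : e ∈ X.Rg ∪ X.Pv := by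
        by_contra h4
        exact h2 (X.mem_Ir.2 h4)
      obtain ⟨k, hk, rfl⟩ := (X.new_edge he1 h1).2.2 h3
      exact mem_image_of_mem _ hk
  have hnewc : (newEdges R (X.Rg ∪ X.Pv) X.Ir).card ≤ X.Ir.card + p := by
    have h1 := (card_le_card hnew).trans (card_union_le _ _)
    have h2 := card_image_le (s := X.Jt) (f := X.pr)
    rw [X.card_Jt] at h2
    omega
  have hcI := X.card_Ir
  have hcV := X.card_le
  have hcJ := X.card_J
  obtain ⟨f, Bad, g1, g2, g3, g4, g5, g6, g7⟩ := greedy R (X.Rg ∪ X.Pv) X.Ir hAB f0 hf0inj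
    (Ico c (c + ρ)) ((X.Jb ∪ X.Jt).image fun k => ad (rl N F k) (r k)) (fun _ => False)
    (fun _ => 0) 2 (univ.sup R.ch + 1) (2 * p + (X.Ir.card + p)) 1 (2 * p)
    (by intro e he; exact he.elim)
    (by
      intro b hb
      have h1 : (univ.filter fun c => c ≠ R.r ∧ R.par c = b ∧ c ∈ X.Rg ∪ X.Pv ∧ ¬ False).card ≤ 1 := by
        rw [card_le_one]
        intro x hx y hy
        rw [mem_filter] at hx hy
        obtain ⟨_, hx1, hx2, hx3, _⟩ := hx
        obtain ⟨_, hy1, hy2, hy3, _⟩ := hy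
        obtain ⟨k, hk, rfl⟩ := (X.new_edge hx1 (Or.inr (hx2 ▸ hb))).2.2 hx3
        have h2 := (X.par_prt k hk).2.2.2 y hy1 (hy2.trans hx2.symm)
        exact h2.symm
      have h2 : (if b ≠ R.r ∧ R.par b ∈ (X.Rg ∪ X.Pv) ∪ X.Ir ∧ ¬ False then 1 else 0) ≤ 1 := by
        split_ifs <;> omega
      omega)
    (by
      intro b _
      have := Finset.le_sup (f := R.ch) (mem_univ b)
      omega)
    (by
      have h1 := card_image_le (s := X.Jb ∪ X.Jt) (f := fun k => ad (rl N F k) (r k))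
      omega)
    (by
      have h1 : ((X.Rg ∪ X.Pv).filter fun a => f0 a ∈ Ico c (c + ρ)) ⊆ X.Pv := by
        intro v hv
        rw [mem_filter, mem_union, mem_Ico] at hv
        obtain ⟨h1 | h1, h2⟩ := hv
        · exfalso
          obtain ⟨k, hk, rfl⟩ := X.mem_Rg.1 h1
          rw [hf01 k hk] at h2
          have := hregC k hk
          omega
        · exact h1
      have h2 := card_le_card h1
      rw [X.card_Pv] at h2
      exact h2)
    (by
      rw [Nat.card_Ico]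
      omega)
    (by omega)
  rw [hun] at g3
  have hinj : Function.Injective f := by
    intro u v huv
    exact g3 (by simp) (by simp) huv
  have hfr : ∀ k < n, f (X.reg k) = rl N F k := by
    intro k hk
    rw [g1 _ (mem_union_left _ (X.mem_Rg.2 ⟨k, hk, rfl⟩)), hf01 k hk]
  have hfp : ∀ k ∈ X.Jb ∪ X.Jt, f (X.pr k) = r k := by
    intro k hk
    rw [g1 _ (mem_union_right _ (X.mem_Pv.2 ⟨k, hk, rfl⟩)), hf02 k hk]
  have hmid : ∀ v, v ∉ X.Rg → c ≤ f v ∧ f v < c + ρ := by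
    intro v hv
    by_cases h1 : v ∈ X.Pv
    · obtain ⟨k, hk, rfl⟩ := X.mem_Pv.1 h1
      rw [hfp k hk]
      exact P.hr k hk
    · have h2 : v ∈ X.Ir := by
        rw [X.mem_Ir, mem_union]
        rintro (h3 | h3)
        · exact hv h3
        · exact h1 h3
      have := g2 v h2
      rw [mem_Ico] at this
      exact this
  refine ⟨f, hinj, hfr, hfp, hmid, ?_⟩
  -- the differences
  have hBad : ∀ e, e ∉ Bad := fun e he => g4 e he
  -- classification
  have hcl : ∀ e, e ≠ R.r →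
      (∃ k, k + 1 < n ∧ e = X.reg k ∧ ad (f e) (f (R.par e)) + (F k + F (k + 1)) = N ∧
        ρ < ad (f e) (f (R.par e))) ∨
      (∃ k ∈ X.Jb ∪ X.Jt, (k ∈ X.Jt → e = X.reg k) ∧ (k ∉ X.Jt → e = X.pr k) ∧
        ad (f e) (f (R.par e)) + msum N F r k = N ∧ ad (f e) (f (R.par e)) = ad (rl N F k) (r k)) ∨
      (e ∈ newEdges R (X.Rg ∪ X.Pv) X.Ir ∧ ad (f e) (f (R.par e)) < ρ) := by
    intro e he
    by_cases h1 : e ∈ X.Ir ∨ R.par e ∈ X.Ir
    · right; right
      obtain ⟨h2, h3, h4⟩ := X.new_edge he h1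
      have h5 := hmid e h2
      have h6 := hmid _ h3
      refine ⟨?_, by unfold ad; omega⟩
      unfold newEdges
      rw [mem_filter]
      refine ⟨mem_univ _, he, ?_⟩
      by_cases h7 : e ∈ X.Ir
      · left; exact ⟨h7, by rw [hun]; exact mem_univ _⟩
      · right
        rcases h1 with h1 | h1
        · exact absurd h1 h7
        · refine ⟨?_, h1⟩
          by_contra h8
          exact h7 (X.mem_Ir.2 h8)
    · push Not at h1
      have h2 : e ∈ X.Rg ∪ X.Pv := by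
        by_contra h8
        exact h1.1 (X.mem_Ir.2 h8)
      have h3 : R.par e ∈ X.Rg ∪ X.Pv := by
        by_contra h8
        exact h1.2 (X.mem_Ir.2 h8)
      rcases X.old_edge he h2 h3 with ⟨k, h4, h5, rfl, h6⟩ | ⟨k, h4, rfl, h6⟩ | ⟨k, h4, rfl, h6⟩
      · left
        refine ⟨k, h4, rfl, ?_⟩
        rw [h6, hfr k (by omega), hfr (k + 1) h4]
        exact P.ad_reg h4
      · right; left
        have h7 : k ∈ X.Jb ∪ X.Jt := mem_union_right _ h4
        refine ⟨k, h7, fun _ => rfl, fun h => absurd h4 h, ?_⟩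
        rw [h6, hfr k (X.J_lt h7), hfp k h7]
        exact ⟨P.ad_joint h7 (X.J_lt h7), rfl⟩
      · right; left
        have h7 : k ∈ X.Jb ∪ X.Jt := mem_union_left _ h4
        refine ⟨k, h7, fun h => absurd h (Finset.disjoint_left.1 X.disj h4), fun _ => rfl, ?_⟩
        rw [h6, hfr k (X.J_lt h7), hfp k h7, ad_comm]
        exact ⟨P.ad_joint h7 (X.J_lt h7), rfl⟩
  intro v w hv hw hvw
  rcases hcl v hv with ⟨k, a1, a2, a3, a4⟩ | ⟨k, a1, a2, a3, a4, a5⟩ | ⟨a1, a2⟩ <;>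
    rcases hcl w hw with ⟨k', b1, b2, b3, b4⟩ | ⟨k', b1, b2, b3, b4, b5⟩ | ⟨b1, b2⟩
  · rcases lt_trichotomy k k' with h7 | h7 | h7
    · have := P.sum_lt h7 b1; omega
    · rw [a2, b2, h7]
    · have := P.sum_lt h7 a1; omega
  · exact absurd (by omega) (P.mpair k' b1 k a1)
  · omega
  · exact absurd (by omega) (P.mpair k a1 k' b1)
  · have h1 : k = k' := P.minj k a1 k' b1 (by omega)
    subst h1
    by_cases h2 : k ∈ X.Jt
    · rw [a2 h2, b2 h2]
    · rw [a3 h2, b3 h2]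
  · exfalso
    apply g5 w b1 (hBad w)
    rw [← hvw, a5]
    exact mem_image_of_mem (fun k => ad (rl N F k) (r k)) a1
  · omega
  · exfalso
    apply g5 v a1 (hBad v)
    rw [hvw, b5]
    exact mem_image_of_mem (fun k => ad (rl N F k) (r k)) b1
  · exact g6 v a1 w b1 (hBad v) (hBad w) hvw

end

end Pool.Agent.GracefulLeaf
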